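import Pool.Agent.Helper67.CQ.Z2
import Pool.Agent.Helper9.CT.Fibres

/-!
# The calculus of functors of points over a finite field
-/

set_option autoImplicit false

namespace Pool.Agent.Helper71.PN

open Pool.Agent.Helper29.CQ Pool.Agent.Helper65.CC Pool.Agent.Helper87.CC
  Pool.Agent.Helper65.CC.KFn
open Pool.Agent.Helper67.CQ (IsKum isKum_std Dbl IsDbl isDbl_std p_zero)
open Polynomial TensorProduct

section members

variable {p : ℕ} {P : ∀ (A : Type) [CommRing A], Prop}

theorem ft_fin (k : Type) [Field k] [Finite k] : Algebra.FiniteType ℤ k := by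
  have : Module.Finite ℤ k := Module.Finite.of_finite
  infer_instance

theorem adj_nontrivial {R : Type} [CommRing R] [Nontrivial R] {g : R[X]} (hg : g.Monic)
    (h : 0 < g.natDegree) : Nontrivial (AdjoinRoot g) :=
  ⟨⟨AdjoinRoot.powerBasisAux' hg ⟨0, h⟩, 0, (AdjoinRoot.powerBasisAux' hg).ne_zero _⟩⟩

/-- the members of a formal class which are algebras over a finite field -/
theorem gops_k (hP : FormalClass p P) (k : Type) [Field k] [Finite k] (hk : (p : k) = 0) :
    GOps k (fun R _ _ => P R) := by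
  have hft : ∀ (R : Type) [CommRing R] [Algebra k R], Algebra.FiniteType k R →
      Algebra.FiniteType ℤ R := fun R _ _ h => ft_alg (ft_fin k) h
  have hch : ∀ (R : Type) [CommRing R] [Algebra k R], (p : R) = 0 := fun R _ _ => by
    rw [← map_natCast (algebraMap k R), hk, map_zero]
  exact
  { ft := fun R _ _ h => by
      have := hP.ft R h
      exact Algebra.FiniteType.of_restrictScalars_finiteType ℤ k R
    zero := fun R _ _ h => p_zero hP h
    iso := fun R S _ _ _ _ e h => hP.iso R S e.toRingEquiv h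
    glue := fun R _ _ f h h1 h2 => hP.glue R f (hft R h) (hch R) h1 h2
    closed := fun R _ _ f h1 h2 => hP.closed R f h1 h2
    opn := fun R _ _ f h1 h2 => hP.opn R f h1 h2
    poly := fun R _ _ h => hP.poly R h
    one := hP.curve k (ft_fin k) (hch k) (by rw [ringKrullDim_eq_zero_of_field]; exact zero_le_one)
    transfer := fun R _ _ g h1 h3 h4 h5 => by
      rcases subsingleton_or_nontrivial R with h0 | h0
      · exact p_zero hP h0
      have := h3.free_adjoinRoot
      have := h3.finite_adjoinRoot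
      have := adj_nontrivial h3 h4
      exact hP.transfer R (AdjoinRoot g) (hft R h1) h5 }

end members

/-! ### Dimension at most one -/

section dim

variable {K : Type} [Field K]

/-- finitely generated algebras of dimension at most one -/
def Dim1 (K : Type) [Field K] (R : Type) [CommRing R] [Algebra K R] : Prop :=
  Algebra.FiniteType K R ∧ ringKrullDim R ≤ 1

/-- all representing algebras have dimension at most one -/
def D1 (F : KFn K) : Prop := F.Mem (fun R _ _ => Dim1 K R)

theorem dim1_iso {A B : Type} [CommRing A] [CommRing B] [Algebra K A] [Algebra K B] (e : A ≃ₐ[K] B)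
    (h : Dim1 K A) : Dim1 K B :=
  ⟨h.1.equiv e, (ringKrullDim_eq_of_ringEquiv e.toRingEquiv).symm.le.trans h.2⟩

theorem D1.of_rep {F : KFn K} {A : Type} [CommRing A] [Algebra K A] {a : F.obj A}
    (ha : F.Rep A a) (h : Dim1 K A) : D1 F := by
  intro B _ _ b hB hb
  obtain ⟨e⟩ := ha.equiv hb
  exact dim1_iso e h

theorem D1.of_iso {F F' : KFn K} (e : Iso F F') (h : D1 F') : D1 F := Mem.of_iso e h

theorem D1.cls {F : KFn K} [hF : Rp F] (h : D1 F) (u : Coord F) : D1 (F.cls u) := by
  obtain ⟨A, _, _, a, hA, ha⟩ := hF.out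
  obtain ⟨b, hb⟩ := ha.cls u
  exact D1.of_rep hb ⟨ft_quot hA _, (ringKrullDim_le_of_surjective (Ideal.Quotient.mk _)
    Ideal.Quotient.mk_surjective).trans (h A a hA ha).2⟩

theorem D1.dbl {F : KFn K} [hF : Rp F] (h : D1 F) (d : Coord F) : D1 (dbl F d) := by
  obtain ⟨A, _, _, a, hA, ha⟩ := hF.out
  obtain ⟨b, hb⟩ := rep_dbl d ha
  refine D1.of_rep hb ⟨hA.trans (inferInstance : Algebra.FiniteType A
    (AdjoinRoot (X ^ 2 - C (d.val a) : A[X]))), ?_⟩
  have hm : (X ^ 2 - C (d.val a) : A[X]).Monic := monic_X_pow_sub_C _ two_ne_zero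
  have h1 : Module.Finite A (AdjoinRoot (X ^ 2 - C (d.val a) : A[X])) := hm.finite_adjoinRoot
  have h2 : Algebra.IsIntegral A (AdjoinRoot (X ^ 2 - C (d.val a) : A[X])) :=
    Algebra.IsIntegral.of_finite _ _
  exact (Pool.Agent.Helper62.TS.dim_integral_le (R := A)).trans (h A a hA ha).2

theorem D1.line1 : D1 (A1 K) := by
  have h1 : (A1 K).Rep K[X] X := by
    intro R _ _ x
    refine ⟨aeval (R := K) (show R from x), aeval_X (R := K) (show R from x), fun g hg => ?_⟩
    apply Polynomial.algHom_ext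
    rw [aeval_X]
    exact hg
  refine D1.of_rep h1 ⟨inferInstance, ?_⟩
  rw [Polynomial.ringKrullDim_of_isNoetherianRing, ringKrullDim_eq_zero_of_field]
  exact le_of_eq (zero_add 1)

/-- plane curves -/
noncomputable def PC (h : MvPolynomial (Fin 2) K) : KFn K :=
  (A2 K).cls ⟨fun {R} _ _ x => MvPolynomial.aeval ![x.1, x.2] h, fun {R S} _ _ _ _ f x => by
    change f (MvPolynomial.aeval ![x.1, x.2] h) = MvPolynomial.aeval ![f x.1, f x.2] h
    have h1 : f.comp (MvPolynomial.aeval ![x.1, x.2]) = MvPolynomial.aeval ![f x.1, f x.2] := by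
      apply MvPolynomial.algHom_ext
      intro i
      rw [AlgHom.comp_apply, MvPolynomial.aeval_X, MvPolynomial.aeval_X]
      fin_cases i <;> rfl
    exact DFunLike.congr_fun h1 h⟩

theorem rep_PC (h : MvPolynomial (Fin 2) K) :
    ∃ a, (PC h).Rep (MvPolynomial (Fin 2) K ⧸ Ideal.span {h}) a := by
  let q := Ideal.Quotient.mkₐ K (Ideal.span {h})
  have h0 : MvPolynomial.aeval ![q (MvPolynomial.X 0), q (MvPolynomial.X 1)] h = 0 := by
    have h1 : (MvPolynomial.aeval ![q (MvPolynomial.X 0), q (MvPolynomial.X 1)] :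
        MvPolynomial (Fin 2) K →ₐ[K] _) = q := by
      apply MvPolynomial.algHom_ext
      intro i
      rw [MvPolynomial.aeval_X]
      fin_cases i <;> rfl
    rw [h1]
    exact Ideal.Quotient.eq_zero_iff_mem.2 (Ideal.mem_span_singleton_self h)
  refine ⟨⟨(q (MvPolynomial.X 0), q (MvPolynomial.X 1)), h0⟩, ?_⟩
  intro R _ _ x
  have hx : MvPolynomial.aeval ![x.1.1, x.1.2] h = 0 := x.2
  have hI : ∀ b ∈ Ideal.span {h}, (MvPolynomial.aeval ![x.1.1, x.1.2] :
      MvPolynomial (Fin 2) K →ₐ[K] R) b = 0 := by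
    intro b hb
    obtain ⟨c, rfl⟩ := Ideal.mem_span_singleton'.1 hb
    rw [map_mul, hx, mul_zero]
  refine ⟨Ideal.Quotient.liftₐ _ (MvPolynomial.aeval ![x.1.1, x.1.2]) hI, ?_, ?_⟩
  · apply Subtype.ext
    change (MvPolynomial.aeval ![x.1.1, x.1.2] (MvPolynomial.X 0),
      MvPolynomial.aeval ![x.1.1, x.1.2] (MvPolynomial.X 1)) = x.1
    rw [MvPolynomial.aeval_X, MvPolynomial.aeval_X]
    rfl
  · intro g hg
    have h1 : (g (q (MvPolynomial.X 0)), g (q (MvPolynomial.X 1))) = x.1 := congrArg Subtype.val hg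
    apply Ideal.Quotient.algHom_ext
    apply MvPolynomial.algHom_ext
    intro i
    fin_cases i
    · exact (congrArg Prod.fst h1).trans (MvPolynomial.aeval_X ![x.1.1, x.1.2] 0).symm
    · exact (congrArg Prod.snd h1).trans (MvPolynomial.aeval_X ![x.1.1, x.1.2] 1).symm

theorem D1.curve {h : MvPolynomial (Fin 2) K} (hh : h ≠ 0) : D1 (PC h) := by
  obtain ⟨a, ha⟩ := rep_PC h
  exact D1.of_rep ha ⟨ft_quot inferInstance _, Pool.Agent.Helper67.CQ.dim_quot hh⟩

theorem D1.mem {p : ℕ} {P : ∀ (A : Type) [CommRing A], Prop} (hP : FormalClass p P) [Finite K]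
    (hk : (p : K) = 0) {F : KFn K} (h : D1 F) : F.Mem (fun R _ _ => P R) := by
  intro A _ _ a hA ha
  refine hP.curve A (ft_alg (ft_fin K) hA) ?_ (h A a hA ha).2
  rw [← map_natCast (algebraMap K A), hk, map_zero]

end dim

/-! ### Scaling -/

section scaling

variable {K : Type} [Field K]

theorem inv_unique {R : Type} [CommRing R] {a b : R} (h : a * b = 1) : Ring.inverse a = b := by
  have h1 : IsUnit a := IsUnit.of_mul_eq_one _ h
  calc Ring.inverse a = Ring.inverse a * (a * b) := by rw [h, mul_one]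
    _ = b := by rw [← mul_assoc, Ring.inverse_mul_cancel a h1, one_mul]

/-- an action of the multiplicative group -/
structure Sc (F : KFn K) where
  /-- the action -/
  sc : ∀ {R : Type} [CommRing R] [Algebra K R], Rˣ → F.obj R → F.obj R
  one : ∀ {R : Type} [CommRing R] [Algebra K R] (x : F.obj R), sc 1 x = x
  mul : ∀ {R : Type} [CommRing R] [Algebra K R] (u v : Rˣ) (x : F.obj R),
    sc (u * v) x = sc u (sc v x)
  nat : ∀ {R S : Type} [CommRing R] [CommRing S] [Algebra K R] [Algebra K S] (f : R →ₐ[K] S)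
    (u : Rˣ) (x : F.obj R), F.map f (sc u x) = sc (Units.map (f : R →* S) u) (F.map f x)

/-- the product with the multiplicative group -/
def gm (F : KFn K) : KFn K := F.line.opn F.lineCoord

/-- a coordinate of weight one trivialises the action -/
noncomputable def Sc.iso {F : KFn K} (s : Sc F) (z : Coord F)
    (hz : ∀ {R : Type} [CommRing R] [Algebra K R] (u : Rˣ) (x : F.obj R),
      z.val (s.sc u x) = u * z.val x) : Iso (F.opn z) (gm (F.cls (subC z 1))) where
  hom {R} _ _ x := ⟨(⟨s.sc x.2.unit⁻¹ x.1, by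
    change z.val (s.sc x.2.unit⁻¹ x.1) - algebraMap K R 1 = 0
    rw [hz, map_one, IsUnit.val_inv_mul, sub_self]⟩, z.val x.1), x.2⟩
  inv {R} _ _ y := ⟨s.sc (IsUnit.unit (a := y.1.2) y.2) y.1.1.1, by
    have h1 : z.val y.1.1.1 - algebraMap K R 1 = 0 := y.1.1.2
    rw [map_one, sub_eq_zero] at h1
    change IsUnit (z.val (s.sc (IsUnit.unit (a := y.1.2) y.2) y.1.1.1))
    rw [hz, h1, mul_one]
    exact y.2⟩
  inv_hom {R} _ _ x := by
    apply Subtype.ext
    change s.sc _ (s.sc x.2.unit⁻¹ x.1) = x.1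
    rw [← s.mul]
    have h1 : (IsUnit.unit (a := z.val x.1) x.2) * x.2.unit⁻¹ = 1 := mul_inv_cancel _
    exact (congrArg (fun u => s.sc u x.1) h1).trans (s.one _)
  hom_inv {R} _ _ y := by
    have h1 : z.val y.1.1.1 - algebraMap K R 1 = 0 := y.1.1.2
    rw [map_one, sub_eq_zero] at h1
    have h2 : z.val (s.sc (IsUnit.unit (a := y.1.2) y.2) y.1.1.1) = y.1.2 := by
      rw [hz, h1, mul_one]
      rfl
    apply Subtype.ext
    refine Prod.ext (Subtype.ext ?_) h2
    have h3 : ∀ (h : IsUnit (z.val (s.sc (IsUnit.unit (a := y.1.2) y.2) y.1.1.1))),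
        h.unit = IsUnit.unit (a := y.1.2) y.2 := fun h => Units.ext h2
    change s.sc _ (s.sc _ y.1.1.1) = y.1.1.1
    rw [← s.mul]
    refine (congrArg (fun u => s.sc u y.1.1.1) ?_).trans (s.one _)
    rw [h3]
    exact inv_mul_cancel _
  nat {R S} _ _ _ _ f x := by
    apply Subtype.ext
    refine Prod.ext (Subtype.ext ?_) (z.nat f x.1)
    change F.map f (s.sc x.2.unit⁻¹ x.1) = s.sc _ (F.map f x.1)
    rw [s.nat]
    refine congrArg (fun u => s.sc u (F.map f x.1)) ?_
    rw [map_inv]
    refine congrArg (fun u => u⁻¹) ?_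
    apply Units.ext
    exact z.nat f x.1

variable {G : ∀ (R : Type) [CommRing R] [Algebra K R], Prop}

theorem mem_gm (hG : KOps K G) {F : KFn K} [Rp F] (h : F.Mem G) : (gm F).Mem G :=
  mem_opn hG _ (Mem.line hG h) (Mem.of_iso (zeroSection F) h)

/-- cones -/
theorem Sc.mem (hG : KOps K G) {F : KFn K} [Rp F] (s : Sc F) (z : Coord F)
    (hz : ∀ {R : Type} [CommRing R] [Algebra K R] (u : Rˣ) (x : F.obj R),
      z.val (s.sc u x) = u * z.val x) (h1 : (F.cls (subC z 1)).Mem G) (h0 : (F.cls z).Mem G) :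
    F.Mem G :=
  Mem.glue hG z (Mem.of_iso (s.iso z hz) (mem_gm hG h1)) h0

/-- the converse, for classes with the rule (line) -/
theorem mem_of_gm (hG : GOps K G) (h2 : (2 : K) ≠ 0)
    (hline : ∀ (R : Type) [CommRing R] [Algebra K R], G (Polynomial R) → G R) {F : KFn K}
    [hF : Rp F] (h : (gm F).Mem G) : F.Mem G := by
  have h3 : F.line.Mem G := by
    let d : Coord F.line := ⟨fun {R} _ _ x => x.2 ^ 2 - algebraMap K R 4, fun f x => by
      rw [map_sub, map_pow, AlgHom.commutes]
      rfl⟩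
    refine mem_of_dbl hG d (Mem.of_iso ?_ h)
    have e2 : ∀ (R : Type) [CommRing R] [Algebra K R],
        2 * algebraMap K R 2⁻¹ = 1 := fun R _ _ => by
      rw [← map_ofNat (algebraMap K R) 2, ← map_mul, mul_inv_cancel₀ h2, map_one]
    have e4 : ∀ (R : Type) [CommRing R] [Algebra K R], algebraMap K R 4 = 4 := fun R _ _ =>
      map_ofNat (algebraMap K R) 4
    have hrel : ∀ (R : Type) [CommRing R] [Algebra K R] (T μ : R), μ ^ 2 - (T ^ 2 - algebraMap K R 4) = 0 →
        (algebraMap K R 2⁻¹ * (T + μ)) * (algebraMap K R 2⁻¹ * (T - μ)) = 1 := by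
      intro R _ _ T μ h
      rw [e4] at h
      have := e2 R
      linear_combination (-(algebraMap K R 2⁻¹) ^ 2) * h + (2 * algebraMap K R 2⁻¹ + 1) * this
    exact
      { hom := fun {R} _ _ x => ⟨(x.1.1.1, algebraMap K R 2⁻¹ * (x.1.1.2 + x.1.2)),
          IsUnit.of_mul_eq_one _ (hrel R _ _ x.2)⟩
        inv := fun {R} _ _ y => ⟨((y.1.1, y.1.2 + Ring.inverse y.1.2), y.1.2 - Ring.inverse y.1.2), by
          have h3 := mul_inv' (a := y.1.2) y.2
          change (y.1.2 - Ring.inverse y.1.2) ^ 2 - ((y.1.2 + Ring.inverse y.1.2) ^ 2 -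
            algebraMap K R 4) = 0
          rw [e4]
          linear_combination (-4) * h3⟩
        inv_hom := fun {R} _ _ x => by
          have h3 := hrel R _ _ x.2
          have h5 : Ring.inverse (algebraMap K R 2⁻¹ * (x.1.1.2 + x.1.2)) =
              algebraMap K R 2⁻¹ * (x.1.1.2 - x.1.2) := inv_unique h3
          have h6 := e2 R
          refine Subtype.ext (Prod.ext (Prod.ext rfl ?_) ?_)
          · change algebraMap K R 2⁻¹ * (x.1.1.2 + x.1.2) +
              Ring.inverse (algebraMap K R 2⁻¹ * (x.1.1.2 + x.1.2)) = x.1.1.2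
            rw [h5]
            linear_combination x.1.1.2 * h6
          · change algebraMap K R 2⁻¹ * (x.1.1.2 + x.1.2) -
              Ring.inverse (algebraMap K R 2⁻¹ * (x.1.1.2 + x.1.2)) = x.1.2
            rw [h5]
            linear_combination x.1.2 * h6
        hom_inv := fun {R} _ _ y => by
          have h6 := e2 R
          refine Subtype.ext (Prod.ext rfl ?_)
          change algebraMap K R 2⁻¹ * ((y.1.2 + Ring.inverse y.1.2) + (y.1.2 - Ring.inverse y.1.2)) =
            y.1.2
          linear_combination y.1.2 * h6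
        nat := fun {R S} _ _ _ _ f x => by
          refine Subtype.ext (Prod.ext rfl ?_)
          change f (algebraMap K R 2⁻¹ * (x.1.1.2 + x.1.2)) =
            algebraMap K S 2⁻¹ * (f x.1.1.2 + f x.1.2)
          rw [map_mul, map_add, AlgHom.commutes] }
  intro A _ _ a hA ha
  obtain ⟨b, hb⟩ := ha.line
  exact hline A (h3 _ b (ft_poly hA) hb)

/-- the slice of a cone -/
theorem Sc.slice (hG : GOps K G) (h2 : (2 : K) ≠ 0)
    (hline : ∀ (R : Type) [CommRing R] [Algebra K R], G (Polynomial R) → G R) {F : KFn K}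
    [Rp F] (s : Sc F) (z : Coord F)
    (hz : ∀ {R : Type} [CommRing R] [Algebra K R] (u : Rˣ) (x : F.obj R),
      z.val (s.sc u x) = u * z.val x) (h : F.Mem G) (h0 : (F.cls z).Mem G) :
    (F.cls (subC z 1)).Mem G :=
  mem_of_gm hG h2 hline (Mem.of_iso (s.iso z hz).symm (mem_opn hG.toKOps z h h0))

end scaling

end Pool.Agent.Helper71.PN
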