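import Pool.Agent.Helper71.PN.Calc
import Pool.Agent.Helper9.QP.Defs

/-!
# Fibrations over the affine line over a finite field
-/

set_option autoImplicit false

namespace Pool.Agent.Helper71.PN

open Pool.Agent.Helper29.CQ Pool.Agent.Helper65.CC Pool.Agent.Helper87.CC
  Pool.Agent.Helper65.CC.KFn
open Polynomial TensorProduct

section

variable {k : Type} [Field k]

/-- restriction of scalars -/
abbrev rsA (k K R : Type) [Field k] [Field K] [Algebra k K] [CommRing R] [Algebra K R] :
    Algebra k R := Algebra.compHom R (algebraMap k K)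

/-- restriction of scalars -/
abbrev rsH {K R S : Type} [Field K] [Algebra k K] [CommRing R] [Algebra K R] [CommRing S]
    [Algebra K S] (f : R →ₐ[K] S) :
    @AlgHom k R S _ _ _ (rsA k K R) (rsA k K S) :=
  @AlgHom.mk k R S _ _ _ (rsA k K R) (rsA k K S) (f : R →+* S)
    (fun c => f.commutes (algebraMap k K c))

/-- the fibre over a point `τ` of the line with values in an extension field -/
def fibK (F : KFn k) (t : Coord F) (K : Type) [Field K] [Algebra k K] (τ : K) : KFn K where
  obj R _ _ := {x : @KFn.obj k _ F R _ (rsA k K R) //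
    @Coord.val k _ F t R _ (rsA k K R) x = algebraMap K R τ}
  map {R S} _ _ _ _ f x := ⟨@KFn.map k _ F R S _ _ (rsA k K R) (rsA k K S) (rsH f) x.1, by
    rw [← @Coord.nat k _ F t R S _ _ (rsA k K R) (rsA k K S) (rsH f) x.1, x.2]
    exact f.commutes τ⟩
  id_map {R} _ _ x := Subtype.ext (@KFn.id_map k _ F R _ (rsA k K R) x.1)
  comp_map {R S T} _ _ _ _ _ _ f g x := Subtype.ext
    (@KFn.comp_map k _ F R S T _ _ _ (rsA k K R) (rsA k K S) (rsA k K T) (rsH f) (rsH g) x.1)

theorem rep_fibK {F : KFn k} (t : Coord F) {A : Type} [CommRing A] [Algebra k A] {a : F.obj A}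
    (ha : F.Rep A a) (K : Type) [Field K] [Algebra k[X] K] :
    let _ : Algebra k[X] A := (aeval (t.val a) : k[X] →ₐ[k] A).toAlgebra
    let _ : Algebra k K := ((algebraMap k[X] K).comp C).toAlgebra
    ∃ pt, (fibK F t K (algebraMap k[X] K X)).Rep (K ⊗[k[X]] A) pt := by
  intro iA iK
  let ι : A →ₐ[k[X]] K ⊗[k[X]] A := Algebra.TensorProduct.includeRight
  have hι : ∀ r : k[X], algebraMap K (K ⊗[k[X]] A) (algebraMap k[X] K r) =
      ι (aeval (t.val a) r) := by
    intro r
    have h1 := ι.commutes r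
    change ι (aeval (t.val a) r) = _ at h1
    rw [h1, IsScalarTower.algebraMap_apply k[X] K (K ⊗[k[X]] A)]
  let ιk : @AlgHom k A (K ⊗[k[X]] A) _ _ _ _ (rsA k K (K ⊗[k[X]] A)) :=
    @AlgHom.mk k A (K ⊗[k[X]] A) _ _ _ _ (rsA k K (K ⊗[k[X]] A)) (ι : A →+* K ⊗[k[X]] A)
      (fun c => by
        have h1 := hι (C c)
        rw [aeval_C] at h1
        exact h1.symm)
  refine ⟨⟨@KFn.map k _ F A (K ⊗[k[X]] A) _ _ _ (rsA k K (K ⊗[k[X]] A)) ιk a, ?_⟩, ?_⟩
  · rw [← @Coord.nat k _ F t A (K ⊗[k[X]] A) _ _ _ (rsA k K (K ⊗[k[X]] A)) ιk a]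
    have h1 := hι X
    rw [aeval_X] at h1
    exact h1.symm
  · intro S _ _ q
    obtain ⟨f, hf, hu⟩ := @ha S _ (rsA k K S) q.1
    have hft : f (t.val a) = algebraMap K S (algebraMap k[X] K X) := by
      have h1 := @Coord.nat k _ F t A S _ _ _ (rsA k K S) f a
      rw [h1, hf]
      exact q.2
    have hcomm : ∀ r : k[X], f (aeval (t.val a) r) = algebraMap K S (algebraMap k[X] K r) := by
      intro r
      have h3 : (@AlgHom.toRingHom k A S _ _ _ _ (rsA k K S) f).comp
          ((aeval (t.val a) : k[X] →ₐ[k] A) : k[X] →+* A) =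
          (algebraMap K S).comp (algebraMap k[X] K) := by
        apply Polynomial.ringHom_ext
        · intro c
          change f (aeval (t.val a) (C c)) = _
          rw [aeval_C]
          exact @AlgHom.commutes k A S _ _ _ _ (rsA k K S) f c
        · change f (aeval (t.val a) X) = _
          rw [aeval_X]
          exact hft
      exact RingHom.congr_fun h3 r
    let _ : Algebra k[X] S := ((algebraMap K S).comp (algebraMap k[X] K)).toAlgebra
    have hst : IsScalarTower k[X] K S := IsScalarTower.of_algebraMap_eq fun _ => rfl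
    let f' : A →ₐ[k[X]] S :=
      { (@AlgHom.toRingHom k A S _ _ _ _ (rsA k K S) f) with commutes' := hcomm }
    let g0 : K ⊗[k[X]] A →ₐ[K] S :=
      Algebra.TensorProduct.lift (Algebra.ofId K S) f' (fun _ _ => Commute.all _ _)
    have hg0 : ∀ d : A, g0 (ι d) = f d := by
      intro d
      change g0 ((1 : K) ⊗ₜ d) = f d
      simp only [g0, Algebra.TensorProduct.lift_tmul, map_one, one_mul]
      rfl
    refine ⟨g0, ?_, ?_⟩
    · apply Subtype.ext
      change @KFn.map k _ F _ S _ _ (rsA k K (K ⊗[k[X]] A)) (rsA k K S) (rsH g0)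
        (@KFn.map k _ F A (K ⊗[k[X]] A) _ _ _ (rsA k K (K ⊗[k[X]] A)) ιk a) = q.1
      rw [← @KFn.comp_map k _ F A _ S _ _ _ _ (rsA k K (K ⊗[k[X]] A)) (rsA k K S) ιk (rsH g0) a,
        ← hf]
      congr 1
      exact @AlgHom.ext k A S _ _ _ _ (rsA k K S) _ _ fun d => hg0 d
    · intro g' hg'
      have e0 : @KFn.map k _ F _ S _ _ (rsA k K (K ⊗[k[X]] A)) (rsA k K S) (rsH g')
        (@KFn.map k _ F A (K ⊗[k[X]] A) _ _ _ (rsA k K (K ⊗[k[X]] A)) ιk a) = q.1 :=
        congrArg Subtype.val hg'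
      rw [← @KFn.comp_map k _ F A _ S _ _ _ _ (rsA k K (K ⊗[k[X]] A)) (rsA k K S) ιk (rsH g') a]
        at e0
      have e1 := hu _ e0
      have e2 : ∀ d : A, g' (ι d) = f d := fun d =>
        congrArg (fun h : @AlgHom k A S _ _ _ _ (rsA k K S) => h d) e1
      apply Algebra.TensorProduct.ext
      · ext
      · refine @AlgHom.ext k[X] A S _ _ _ _ _ _ _ fun d => ?_
        exact (e2 d).trans (hg0 d).symm

end

/-- the members of a formal class are multipliers -/
theorem mult_of_mem {p : ℕ} (hp : p.Prime) {P : ∀ (A : Type) [CommRing A], Prop}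
    (hP : FormalClass p P) (W : Type) [CommRing W] (hW : P W) :
    MultS (fun A _ => Algebra.FiniteType ℤ A ∧ P (ZMod p ⊗[ℤ] A)) W := by
  have key : MultS (fun A _ => Algebra.FiniteType ℤ A ∧ P (Ten (ZMod p) A)) W := by
    refine ⟨hP.ft W hW, fun B _ hB => ⟨ft_ten hB.1 (hP.ft W hW), ?_⟩⟩
    obtain ⟨e⟩ := Pool.Agent.Helper9.CQ.Sops.ten_ten_equiv (p := p) B W
    obtain ⟨e'⟩ := Pool.Agent.Helper9.CQ.Thr.zmod_ten W (hP.char W hW)
    exact hP.iso _ _ e (hP.tensor _ _ hB.2 (hP.iso _ _ e'.symm hW))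
  exact key

/-- **the fibre decomposition** over the line -/
theorem fib_mem' {p : ℕ} (hp : p.Prime) {P : ∀ (A : Type) [CommRing A], Prop}
    (hP : FormalClass p P) (k : Type) [Field k] [Finite k] [CharP k p] (F : KFn k) (t : Coord F)
    (h : ∀ (K : Type) [Field K] [IsAlgClosed K] [CharP K p] [Algebra k K] (τ : K)
      (G : ∀ (R : Type) [CommRing R] [Algebra K R], Prop), GOps K G →
      (∀ (W : Type) [CommRing W] [Algebra k W], P W → G (K ⊗[k] W)) → (fibK F t K τ).Mem G) :
    F.Mem (fun R _ _ => P R) := by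
  intro D _ _ a hD ha
  have hS := Pool.Agent.Helper9.CQ.Sops.sops hp hP
  have hft2 : Algebra.FiniteType ℤ k[X] := ft_alg (ft_fin k) inferInstance
  have hft3 : Algebra.FiniteType ℤ D := ft_alg (ft_fin k) hD
  let _ : Algebra k[X] D := (aeval (t.val a) : k[X] →ₐ[k] D).toAlgebra
  have hft4 : Algebra.FiniteType k[X] D :=
    Algebra.FiniteType.of_restrictScalars_finiteType ℤ k[X] D
  have hdim : ∀ q : Ideal k[X], ringKrullDim (k[X] ⧸ q) ≤ 1 := by
    intro q
    refine (ringKrullDim_quotient_le q).trans ?_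
    rw [Polynomial.ringKrullDim_of_isNoetherianRing, ringKrullDim_eq_zero_of_field]
    exact le_of_eq (zero_add 1)
  have hmult : MultS (fun A _ => Algebra.FiniteType ℤ A ∧ P (ZMod p ⊗[ℤ] A)) D := by
    refine Pool.Agent.Helper20.BL.fibres_mult hS hft2 hft4 ?_ ?_
    · intro q _ _
      have hcp : CharP (AlgebraicClosure q.ResidueField) p :=
        charP_of_injective_ringHom (((algebraMap k[X]
          (AlgebraicClosure q.ResidueField)).comp C).injective) p
      obtain ⟨pt, hpt⟩ := rep_fibK t ha (AlgebraicClosure q.ResidueField)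
      let _ : Algebra k (AlgebraicClosure q.ResidueField) :=
        ((algebraMap k[X] (AlgebraicClosure q.ResidueField)).comp C).toAlgebra
      have hmem := h (AlgebraicClosure q.ResidueField)
        (algebraMap k[X] (AlgebraicClosure q.ResidueField) X) _
        (Pool.Agent.Helper9.CQ.Thr.geo_gops hS (AlgebraicClosure q.ResidueField))
        (fun W _ _ h1 => Pool.Agent.Helper9.CQ.ConstOver.const_over W (mult_of_mem hp hP W h1))
      exact hmem _ pt (Algebra.FiniteType.baseChange _) hpt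
    · intro q _ h
      exact absurd h (not_lt.2 (hdim q))
  have h1 := (MultS.mem hS hmult).2
  have hchar : ((p : ℕ) : D) = 0 := by
    rw [← map_natCast (algebraMap k D), CharP.cast_eq_zero, map_zero]
  obtain ⟨e⟩ := Pool.Agent.Helper9.CQ.Thr.zmod_ten D hchar
  exact hP.iso _ _ e h1

/-- **the fibre decomposition** over the line -/
theorem fib_mem {p : ℕ} (hp : p.Prime) {P : ∀ (A : Type) [CommRing A], Prop}
    (hP : FormalClass p P) (k : Type) [Field k] [Finite k] [CharP k p] (F : KFn k) (t : Coord F)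
    (h : ∀ (K : Type) [Field K] [IsAlgClosed K] [CharP K p] [Algebra k K] (τ : K)
      (G : ∀ (R : Type) [CommRing R] [Algebra K R], Prop), GOps K G →
      Pool.Agent.Helper9.QP.Cst k G → (fibK F t K τ).Mem G) :
    F.Mem (fun R _ _ => P R) := by
  refine fib_mem' hp hP k F t fun K _ _ _ _ τ G hG hW => h K τ G hG fun W _ _ h1 h2 => ?_
  refine hW W (hP.curve W h1 ?_ h2)
  rw [← map_natCast (algebraMap k W), CharP.cast_eq_zero, map_zero]

end Pool.Agent.Helper71.PN
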