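import Pool.Agent.Helper71.PN.Isog

/-!
# Cones over covers
-/

set_option autoImplicit false

namespace Pool.Agent.Helper71.PN

open Pool.Agent.Helper29.CQ Pool.Agent.Helper65.CC Pool.Agent.Helper87.CC
  Pool.Agent.Helper65.CC.KFn
open Polynomial

variable {K : Type} [Field K]

/-! ### Dimension at most one -/

theorem D1.opn {F : KFn K} [hF : Rp F] (h : D1 F) (u : Coord F) : D1 (F.opn u) := by
  obtain ⟨A, _, _, a, hA, ha⟩ := hF.out
  obtain ⟨b, hb⟩ := ha.opn u
  exact D1.of_rep hb ⟨ft_away hA _, (Pool.Agent.Helper62.TS.dim_away_le _).trans (h A a hA ha).2⟩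

theorem D1.trivial {F : KFn K} (h : ∀ (A : Type) [CommRing A] [Algebra K A], F.obj A →
    Subsingleton A) : D1 F := by
  intro A _ _ a hA _
  have := h A a
  refine ⟨hA, ?_⟩
  rw [ringKrullDim_eq_bot_of_subsingleton]
  exact bot_le

theorem monic_scale {A : Type} [CommRing A] [Algebra K A] (φ : K[X]) (hφ : 0 < φ.natDegree)
    (a : A) : ∃ g : A[X], g.Monic ∧
      φ.map (algebraMap K A) - C a = C (algebraMap K A φ.leadingCoeff) * g := by
  have h0 : φ ≠ 0 := fun h => by rw [h, natDegree_zero] at hφ; exact absurd hφ (lt_irrefl 0)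
  have hl : φ.leadingCoeff ≠ 0 := leadingCoeff_ne_zero.2 h0
  have h1 : algebraMap K A φ.leadingCoeff * algebraMap K A φ.leadingCoeff⁻¹ = 1 := by
    rw [← map_mul, mul_inv_cancel₀ hl, map_one]
  rcases subsingleton_or_nontrivial A with hs | hs
  · exact ⟨1, monic_one, Subsingleton.elim _ _⟩
  refine ⟨C (algebraMap K A φ.leadingCoeff⁻¹) * (φ.map (algebraMap K A) - C a), ?_, ?_⟩
  · have h2 : (φ.map (algebraMap K A)).natDegree = φ.natDegree :=
      natDegree_map_eq_of_injective (algebraMap K A).injective φ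
    have h3 : (φ.map (algebraMap K A) - C a).natDegree = φ.natDegree := by
      rw [natDegree_sub_C, h2]
    have h4 : (φ.map (algebraMap K A) - C a).leadingCoeff = algebraMap K A φ.leadingCoeff := by
      rw [leadingCoeff, h3, coeff_sub, coeff_C, if_neg (Nat.pos_iff_ne_zero.1 hφ), sub_zero,
        coeff_map]
      rfl
    have h5 := monic_C_mul_of_mul_leadingCoeff_eq_one
      (p := φ.map (algebraMap K A) - C a) (b := algebraMap K A φ.leadingCoeff⁻¹)
      (by rw [h4, mul_comm, h1])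
    exact h5
  · rw [← mul_assoc, ← C_mul, h1, C_1, one_mul]

theorem D1.root {F : KFn K} [hF : Rp F] (h : D1 F) (a : Coord F) (φ : K[X])
    (hφ : 0 < φ.natDegree) : D1 (rootF F a φ) := by
  obtain ⟨A, _, _, a0, hA, ha⟩ := hF.out
  obtain ⟨b, hb⟩ := rep_root a φ ha
  obtain ⟨g, hg, hgφ⟩ := monic_scale φ hφ (a.val a0)
  refine D1.of_rep hb ⟨hA.trans (inferInstance : Algebra.FiniteType A (AdjoinRoot _)), ?_⟩
  have hspan : Ideal.span {φ.map (algebraMap K A) - C (a.val a0)} = Ideal.span {g} := by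
    have h0 : φ ≠ 0 := fun h => by rw [h, natDegree_zero] at hφ; exact absurd hφ (lt_irrefl 0)
    have hl : φ.leadingCoeff ≠ 0 := leadingCoeff_ne_zero.2 h0
    have hu : IsUnit (C (algebraMap K A φ.leadingCoeff) : A[X]) :=
      ((isUnit_iff_ne_zero.2 hl).map (algebraMap K A)).map C
    rw [hgφ, Ideal.span_singleton_mul_left_unit hu]
  have h1 : Module.Finite A (AdjoinRoot g) := hg.finite_adjoinRoot
  have h2 : Algebra.IsIntegral A (AdjoinRoot g) := Algebra.IsIntegral.of_finite _ _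
  have h3 : ringKrullDim (AdjoinRoot g) ≤ 1 :=
    (Pool.Agent.Helper62.TS.dim_integral_le (R := A)).trans (h A a0 hA ha).2
  have h4 : AdjoinRoot (φ.map (algebraMap K A) - C (a.val a0)) ≃+* AdjoinRoot g :=
    Ideal.quotEquivOfEq hspan
  exact (ringKrullDim_eq_of_ringEquiv h4).le.trans h3

/-! ### Covers of subfunctors -/

/-- a function on the base -/
def prC {F : KFn K} {a : Coord F} {φ : K[X]} (u : Coord F) : Coord (rootF F a φ) where
  val x := u.val x.1.1
  nat f x := u.nat f x.1.1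

/-- isomorphisms of the base -/
noncomputable def rootIso {F F' : KFn K} (e : Iso F F') (a : Coord F) (a' : Coord F') (φ : K[X])
    (h : ∀ {R : Type} [CommRing R] [Algebra K R] (x : F.obj R), a'.val (e.hom x) = a.val x) :
    Iso (rootF F a φ) (rootF F' a' φ) where
  hom {R} _ _ x := ⟨(e.hom x.1.1, x.1.2), by
    have h1 : aeval x.1.2 φ - a.val x.1.1 = 0 := x.2
    change aeval x.1.2 φ - a'.val (e.hom x.1.1) = 0
    rw [h]
    exact h1⟩
  inv {R} _ _ y := ⟨(e.inv y.1.1, y.1.2), by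
    have h1 : aeval y.1.2 φ - a'.val y.1.1 = 0 := y.2
    change aeval y.1.2 φ - a.val (e.inv y.1.1) = 0
    rw [← h, e.hom_inv]
    exact h1⟩
  inv_hom x := Subtype.ext (Prod.ext (e.inv_hom x.1.1) rfl)
  hom_inv y := Subtype.ext (Prod.ext (e.hom_inv y.1.1) rfl)
  nat f x := Subtype.ext (Prod.ext (e.nat f x.1.1) rfl)

/-- the cover of a closed subfunctor -/
def rootCls {F : KFn K} (a : Coord F) (φ : K[X]) (u : Coord F) :
    Iso ((rootF F a φ).cls (prC u)) (rootF (F.cls u) (resC u a) φ) where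
  hom x := ⟨(⟨x.1.1.1, x.2⟩, x.1.1.2), x.1.2⟩
  inv y := ⟨⟨(y.1.1.1, y.1.2), y.2⟩, y.1.1.2⟩
  inv_hom _ := rfl
  hom_inv _ := rfl
  nat _ _ := rfl

/-- the cover of an open subfunctor -/
def rootOpn {F : KFn K} (a : Coord F) (φ : K[X]) (u : Coord F) :
    Iso ((rootF F a φ).opn (prC u)) (rootF (F.opn u) (resO u a) φ) where
  hom x := ⟨(⟨x.1.1.1, x.2⟩, x.1.1.2), x.1.2⟩
  inv y := ⟨⟨(y.1.1.1, y.1.2), y.2⟩, y.1.1.2⟩
  inv_hom _ := rfl
  hom_inv _ := rfl
  nat _ _ := rfl

/-- a function on the product with the line -/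
def liC {F : KFn K} (a : Coord F) : Coord F.line where
  val x := a.val x.1
  nat f x := a.nat f x.1

/-- the cover of the product with the line -/
def rootLine {F : KFn K} (a : Coord F) (φ : K[X]) :
    Iso (rootF F.line (liC a) φ) (rootF F a φ).line where
  hom x := (⟨(x.1.1.1, x.1.2), x.2⟩, x.1.1.2)
  inv y := ⟨((y.1.1.1, y.2), y.1.1.2), y.1.2⟩
  inv_hom _ := rfl
  hom_inv _ := rfl
  nat _ _ := rfl

/-! ### Cones -/

/-- the action on a closed cone -/
def Sc.cls {F : KFn K} (s : Sc F) (u : Coord F)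
    (hu : ∀ {R : Type} [CommRing R] [Algebra K R] (t : Rˣ) (x : F.obj R), u.val x = 0 →
      u.val (s.sc t x) = 0) : Sc (F.cls u) where
  sc t x := ⟨s.sc t x.1, hu t x.1 x.2⟩
  one x := Subtype.ext (s.one x.1)
  mul t t' x := Subtype.ext (s.mul t t' x.1)
  nat f t x := Subtype.ext (s.nat f t x.1)

/-- the action on a cover -/
noncomputable def Sc.root {F : KFn K} (s : Sc F) (a : Coord F) (φ : K[X])
    (ha : ∀ {R : Type} [CommRing R] [Algebra K R] (t : Rˣ) (x : F.obj R),
      a.val (s.sc t x) = a.val x) : Sc (rootF F a φ) where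
  sc {R} _ _ t x := ⟨(s.sc t x.1.1, x.1.2), by
    have h1 : aeval x.1.2 φ - a.val x.1.1 = 0 := x.2
    change aeval x.1.2 φ - a.val (s.sc t x.1.1) = 0
    rw [ha]
    exact h1⟩
  one x := Subtype.ext (Prod.ext (s.one x.1.1) rfl)
  mul t t' x := Subtype.ext (Prod.ext (s.mul t t' x.1.1) rfl)
  nat f t x := Subtype.ext (Prod.ext (s.nat f t x.1.1) rfl)

variable {p : ℕ} {P : ∀ (A : Type) [CommRing A], Prop}

/-- a cover of a two-dimensional cone with slices of dimension at most one -/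
theorem root_cone1 [Finite K] (hP : FormalClass p P) (hk : (p : K) = 0) {F : KFn K} [Rp F]
    (s : Sc F) (a : Coord F) (φ : K[X]) (hφ : 0 < φ.natDegree)
    (ha : ∀ {R : Type} [CommRing R] [Algebra K R] (t : Rˣ) (x : F.obj R),
      a.val (s.sc t x) = a.val x) (x : Coord F)
    (hx : ∀ {R : Type} [CommRing R] [Algebra K R] (t : Rˣ) (y : F.obj R),
      x.val (s.sc t y) = t * x.val y) (h1 : D1 (F.cls (subC x 1))) (h0 : D1 (F.cls x)) :
    (rootF F a φ).Mem (fun R _ _ => P R) := by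
  have hG := gops_k hP K hk
  refine Sc.mem hG.toKOps (s.root a φ ha) (prC x) (fun t y => hx t y.1.1) ?_ ?_
  · exact D1.mem hP hk (D1.of_iso (rootCls a φ (subC x 1)) (h1.root _ φ hφ))
  · exact D1.mem hP hk (D1.of_iso (rootCls a φ x) (h0.root _ φ hφ))

end Pool.Agent.Helper71.PN
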