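import Pool.Agent.Helper71.PN.Aff
import Pool.Agent.Helper67.CQ.Z2

/-!
# Inseparable covers of the plane
-/

set_option autoImplicit false

namespace Pool.Agent.Helper71.PN

open Pool.Agent.Helper29.CQ Pool.Agent.Helper65.CC Pool.Agent.Helper87.CC
  Pool.Agent.Helper65.CC.KFn
open Pool.Agent.Helper67.CQ (ex ex_root)
open Polynomial

variable {K : Type} [Field K]

/-- transfer along roots of monic polynomials with constant coefficients -/
theorem mem_of_root {G : ∀ (R : Type) [CommRing R] [Algebra K R], Prop} (hG : GOps K G)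
    {F : KFn K} (a : Coord F) (φ : K[X]) (hφ : φ.Monic) (hd : 0 < φ.natDegree)
    (h : (rootF F a φ).Mem G) : F.Mem G := by
  intro A _ _ a0 hA ha
  obtain ⟨b, hb⟩ := rep_root a φ ha
  rcases subsingleton_or_nontrivial A with h0 | h0
  · exact hG.zero A h0
  have h3 : (φ.map (algebraMap K A)).natDegree = φ.natDegree := natDegree_map_eq_of_injective
    (algebraMap K A).injective φ
  have h4 : (C (a.val a0)).degree < (φ.map (algebraMap K A)).degree := by
    refine lt_of_le_of_lt degree_C_le ?_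
    rw [degree_eq_natDegree (hφ.map _).ne_zero, h3]
    exact_mod_cast hd
  have hm : (φ.map (algebraMap K A) - C (a.val a0)).Monic := (hφ.map _).sub_of_left h4
  refine hG.transfer A _ hA hm ?_ (h _ b ?_ hb)
  · rw [natDegree_sub_C, h3]
    exact hd
  · exact hA.trans (inferInstance : Algebra.FiniteType A (AdjoinRoot _))

variable {p : ℕ} {P : ∀ (A : Type) [CommRing A], Prop}

theorem insep [Finite K] (hP : FormalClass p P) (hp : p.Prime) (hk : (p : K) = 0)
    (f g f' g' : MvPolynomial (Fin 2) K)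
    (hf : ∀ (R : Type) [CommRing R] [Algebra K R] (x y : R),
      ev2 f (x ^ p) (y ^ p) = ev2 f' x y ^ p)
    (hg : ∀ (R : Type) [CommRing R] [Algebra K R] (x y : R),
      ev2 g (x ^ p) (y ^ p) = ev2 g' x y ^ p) (ψ : K[X])
    (h : (AF f' g' ψ).Mem (fun R _ _ => P R)) : (AF f g (ψ ^ p)).Mem (fun R _ _ => P R) := by
  have hG := gops_k hP K hk
  have hXp : (X ^ p : K[X]).Monic := monic_X_pow p
  have hXd : 0 < (X ^ p : K[X]).natDegree := by
    rw [natDegree_X_pow]
    exact hp.pos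
  let xC : Coord (AF f g (ψ ^ p)) := ⟨fun x => x.1.1.1, fun _ _ => rfl⟩
  refine mem_of_root hG xC (X ^ p) hXp hXd ?_
  let yC : Coord (rootF (AF f g (ψ ^ p)) xC (X ^ p)) := ⟨fun x => x.1.1.1.1.2, fun _ _ => rfl⟩
  refine mem_of_root hG yC (X ^ p) hXp hXd ?_
  let δ : Coord (rootF (rootF (AF f g (ψ ^ p)) xC (X ^ p)) yC (X ^ p)) :=
    ⟨fun x => ev2 g' x.1.1.1.2 x.1.2 ^ 2 * aeval x.1.1.1.1.1.2 ψ - ev2 f' x.1.1.1.2 x.1.2,
      fun f x => by
        rw [map_sub, map_mul, map_pow, ← aeval_algHom_apply, ev2_map, ev2_map]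
        rfl⟩
  have hrel : ∀ (R : Type) [CommRing R] [Algebra K R]
      (x : (rootF (rootF (AF f g (ψ ^ p)) xC (X ^ p)) yC (X ^ p)).obj R),
      x.1.1.1.2 ^ p = x.1.1.1.1.1.1.1 ∧ x.1.2 ^ p = x.1.1.1.1.1.1.2 := by
    intro R _ _ x
    have h1 : aeval x.1.1.1.2 (X ^ p : K[X]) - x.1.1.1.1.1.1.1 = 0 := x.1.1.2
    have h2 : aeval x.1.2 (X ^ p : K[X]) - x.1.1.1.1.1.1.2 = 0 := x.2
    rw [map_pow, aeval_X, sub_eq_zero] at h1 h2
    exact ⟨h1, h2⟩
  have hchar : ∀ (R : Type) [CommRing R] [Algebra K R] (s t : R), (s - t) ^ p = s ^ p - t ^ p := by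
    intro R _ _ s t
    rcases subsingleton_or_nontrivial R with h0 | h0
    · exact Subsingleton.elim _ _
    have hpR : (p : R) = 0 := by rw [← map_natCast (algebraMap K R), hk, map_zero]
    have : Fact p.Prime := ⟨hp⟩
    have hch : CharP R p := (CharP.charP_iff_prime_eq_zero hp).2 hpR
    exact sub_pow_char s t
  refine Mem.glue hG.toKOps δ ?_ ?_
  · refine Mem.of_trivial hG.toKOps fun R _ _ x => ?_
    have h1 : IsUnit (δ.val x.1) := x.2
    have h2 : δ.val x.1 ^ p = 0 := by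
      obtain ⟨h3, h4⟩ := hrel R x.1
      have h5 : ev2 g x.1.1.1.1.1.1.1.1 x.1.1.1.1.1.1.1.2 ^ 2 *
        aeval x.1.1.1.1.1.1.2 (ψ ^ p) - ev2 f x.1.1.1.1.1.1.1.1 x.1.1.1.1.1.1.1.2 = 0 :=
        x.1.1.1.1.1.2
      change (ev2 g' x.1.1.1.1.2 x.1.1.2 ^ 2 * aeval x.1.1.1.1.1.1.2 ψ -
        ev2 f' x.1.1.1.1.2 x.1.1.2) ^ p = 0
      rw [hchar, mul_pow, ← pow_mul, mul_comm 2 p, pow_mul, ← hg, ← hf, h3, h4, ← map_pow]
      exact h5
    have h3 := h1.pow p
    rw [h2] at h3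
    exact subsingleton_of_zero_eq_one (isUnit_zero_iff.1 h3)
  · refine Mem.of_iso ?_ h
    exact
      { hom := fun {R} _ _ x => ⟨((x.1.1.1.1.2, x.1.1.2), x.1.1.1.1.1.1.2), x.2⟩
        inv := fun {R} _ _ y => ⟨⟨(⟨(⟨((y.1.1.1 ^ p, y.1.1.2 ^ p), y.1.2), by
            have h1 : ev2 g' y.1.1.1 y.1.1.2 ^ 2 * aeval y.1.2 ψ - ev2 f' y.1.1.1 y.1.1.2 = 0 := y.2
            change ev2 g (y.1.1.1 ^ p) (y.1.1.2 ^ p) ^ 2 * aeval y.1.2 (ψ ^ p) -
              ev2 f (y.1.1.1 ^ p) (y.1.1.2 ^ p) = 0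
            rw [hg, hf, ← pow_mul, mul_comm p 2, pow_mul, map_pow, ← mul_pow, ← hchar, h1,
              zero_pow hp.ne_zero]⟩, y.1.1.1), by
            change aeval y.1.1.1 (X ^ p : K[X]) - y.1.1.1 ^ p = 0
            rw [map_pow, aeval_X, sub_self]⟩, y.1.1.2), by
            change aeval y.1.1.2 (X ^ p : K[X]) - y.1.1.2 ^ p = 0
            rw [map_pow, aeval_X, sub_self]⟩, y.2⟩
        inv_hom := fun {R} _ _ x => by
            obtain ⟨h3, h4⟩ := hrel R x.1
            exact Subtype.ext (Subtype.ext (Prod.ext (Subtype.ext (Prod.ext (Subtype.ext (Prod.ext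
              (Prod.ext h3 h4) rfl)) rfl)) rfl))
        hom_inv := fun _ => rfl
        nat := fun _ _ => rfl }

/-- the conditions of `insep` for the coefficient-wise root -/
theorem ev2_root (hp : p.Prime) (hk : (p : K) = 0) {f f' : MvPolynomial (Fin 2) K}
    (h : ex p K f = f' ^ p) (R : Type) [CommRing R] [Algebra K R] (x y : R) :
    ev2 f (x ^ p) (y ^ p) = ev2 f' x y ^ p := by
  have h1 : ((MvPolynomial.aeval ![x, y] : MvPolynomial (Fin 2) K →ₐ[K] R) :
      MvPolynomial (Fin 2) K →+* R).comp (ex p K) =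
      ((MvPolynomial.aeval ![x ^ p, y ^ p] : MvPolynomial (Fin 2) K →ₐ[K] R) :
      MvPolynomial (Fin 2) K →+* R) := by
    apply MvPolynomial.ringHom_ext
    · intro c
      rw [RingHom.comp_apply, ex, MvPolynomial.eval₂Hom_C]
      change MvPolynomial.aeval ![x, y] (MvPolynomial.C c) =
        MvPolynomial.aeval ![x ^ p, y ^ p] (MvPolynomial.C c)
      rw [MvPolynomial.aeval_C, MvPolynomial.aeval_C]
    · intro i
      rw [RingHom.comp_apply, ex, MvPolynomial.eval₂Hom_X']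
      change MvPolynomial.aeval ![x, y] (MvPolynomial.X i ^ p) =
        MvPolynomial.aeval ![x ^ p, y ^ p] (MvPolynomial.X i)
      rw [map_pow, MvPolynomial.aeval_X, MvPolynomial.aeval_X]
      fin_cases i <;> rfl
  have h2 := RingHom.congr_fun h1 f
  rw [RingHom.comp_apply, h] at h2
  have h3 : MvPolynomial.aeval ![x, y] (f' ^ p) = MvPolynomial.aeval ![x ^ p, y ^ p] f := h2
  rw [map_pow] at h3
  exact h3.symm

end Pool.Agent.Helper71.PN
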