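import Pool.Agent.Helper71.PN.FibK
import Pool.Agent.Helper29.PF.Stable

/-!
# Roots of polynomials over functors, and the rule for additive polynomials
-/

set_option autoImplicit false

namespace Pool.Agent.Helper71.PN

open Pool.Agent.Helper29.CQ Pool.Agent.Helper65.CC Pool.Agent.Helper87.CC
  Pool.Agent.Helper65.CC.KFn
open Pool.Agent.Helper29.PF (StableClass)
open Polynomial

/-- Stable classes with the untwisting rule for additive polynomials: `v ^ 2 = a - φ(z)` is the
quotient by the roots of `φ` of the product of `φ(w) = a` and the curve `v ^ 2 = φ(z)`. -/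
structure IsogenyClass (p : ℕ) (P : ∀ (A : Type) [CommRing A], Prop) : Prop
    extends StableClass p P where
  /-- untwisting for additive polynomials -/
  additive : ∀ (k A : Type) [Field k] [Finite k] [CommRing A] [Algebra k A] (φ : k[X]) (a : A),
    p ≠ 2 → Algebra.FiniteType ℤ A → (∀ m ∈ φ.support, ∃ i, m = p ^ i) → φ.coeff 1 ≠ 0 →
    P (AdjoinRoot (X ^ 2 - C (C a - φ.map (algebraMap k A)) : A[X][X])) →
    P (AdjoinRoot (φ.map (algebraMap k A) - C a : A[X]))

variable {k : Type} [Field k]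

/-- the roots of `φ(w) = a` -/
noncomputable def rootF (F : KFn k) (a : Coord F) (φ : k[X]) : KFn k :=
  F.line.cls ⟨fun x => aeval x.2 φ - a.val x.1, fun f x => by
    rw [map_sub, ← aeval_algHom_apply, a.nat]
    rfl⟩

instance (F : KFn k) [Rp F] (a : Coord F) (φ : k[X]) : Rp (rootF F a φ) := by
  unfold rootF
  infer_instance

theorem rep_line' {F : KFn k} {A : Type} [CommRing A] [Algebra k A] {a : F.obj A}
    (h : F.Rep A a) : F.line.Rep A[X] (F.map (IsScalarTower.toAlgHom k A A[X]) a, X) := by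
  intro R _ _ x
  obtain ⟨f, hf, hu⟩ := h R x.1
  let g0 : A[X] →ₐ[k] R :=
    { Polynomial.eval₂RingHom (f : A →+* R) x.2 with
      commutes' := fun c => by
        rw [IsScalarTower.algebraMap_apply k A A[X]]
        change Polynomial.eval₂ (f : A →+* R) x.2 (Polynomial.C _) = _
        rw [Polynomial.eval₂_C]
        exact f.commutes c }
  have hg0 : g0.comp (IsScalarTower.toAlgHom k A A[X]) = f := by
    ext b
    change Polynomial.eval₂ (f : A →+* R) x.2 (Polynomial.C b) = _
    rw [Polynomial.eval₂_C]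
    rfl
  have hX : g0 Polynomial.X = x.2 := by
    change Polynomial.eval₂ (f : A →+* R) x.2 Polynomial.X = _
    rw [Polynomial.eval₂_X]
  refine ⟨g0, ?_, ?_⟩
  · refine Prod.ext ?_ hX
    change F.map _ (F.map _ a) = x.1
    rw [← F.comp_map, hg0, hf]
  · intro g hg
    have h1 : g.comp (IsScalarTower.toAlgHom k A A[X]) = f := by
      apply hu
      rw [F.comp_map]
      exact congrArg Prod.fst hg
    have h2 : g Polynomial.X = x.2 := congrArg Prod.snd hg
    apply AlgHom.coe_ringHom_injective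
    apply Polynomial.ringHom_ext
    · intro b
      exact DFunLike.congr_fun (h1.trans hg0.symm) b
    · exact h2.trans hX.symm

theorem rep_root {F : KFn k} (a : Coord F) (φ : k[X]) {A : Type} [CommRing A] [Algebra k A]
    {a0 : F.obj A} (h : F.Rep A a0) :
    ∃ b, (rootF F a φ).Rep (AdjoinRoot (φ.map (algebraMap k A) - C (a.val a0) : A[X])) b := by
  obtain ⟨b, hb⟩ := (rep_line' h).cls (⟨fun x => aeval x.2 φ - a.val x.1, fun f x => by
    rw [map_sub, ← aeval_algHom_apply, a.nat]
    rfl⟩ : Coord F.line)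
  have h1 : aeval (X : A[X]) φ - a.val (F.map (IsScalarTower.toAlgHom k A A[X]) a0) =
      φ.map (algebraMap k A) - C (a.val a0) := by
    rw [← a.nat, aeval_X_left_eq_map]
    rfl
  change ∃ b, (rootF F a φ).Rep (A[X] ⧸ Ideal.span {φ.map (algebraMap k A) - C (a.val a0)}) b
  rw [← h1]
  exact ⟨b, hb⟩

/-- the function `a - φ(ζ)` -/
noncomputable def dA {F : KFn k} (a : Coord F) (φ : k[X]) : Coord F.line where
  val x := a.val x.1 - aeval x.2 φ
  nat f x := by
    rw [map_sub, ← aeval_algHom_apply, a.nat]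
    rfl

variable {p : ℕ} {P : ∀ (A : Type) [CommRing A], Prop}

/-- **the rule for additive polynomials** -/
theorem add_mem [Finite k] (hP : IsogenyClass p P) (hk : (p : k) = 0) (hp2 : p ≠ 2) {F : KFn k}
    [hF : Rp F] (a : Coord F) (φ : k[X]) (h1 : ∀ m ∈ φ.support, ∃ i, m = p ^ i)
    (h2 : φ.coeff 1 ≠ 0) (h : (dbl F.line (dA a φ)).Mem (fun R _ _ => P R)) :
    (rootF F a φ).Mem (fun R _ _ => P R) := by
  have hG := gops_k hP.toFormalClass k hk
  obtain ⟨A, _, _, a0, hA, ha⟩ := hF.out
  obtain ⟨b, hb⟩ := rep_root a φ ha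
  refine Mem.of_rep hG.toKOps hb ?_
  refine hP.additive k A φ (a.val a0) hp2 (ft_alg (ft_fin k) hA) h1 h2 ?_
  obtain ⟨c, hc⟩ := rep_dbl (dA a φ) (rep_line' ha)
  have h3 : (dA a φ).val (F.map (IsScalarTower.toAlgHom k A A[X]) a0, X) =
      C (a.val a0) - φ.map (algebraMap k A) := by
    change a.val (F.map (IsScalarTower.toAlgHom k A A[X]) a0) - aeval (X : A[X]) φ = _
    rw [← a.nat, aeval_X_left_eq_map]
    rfl
  rw [← h3]
  refine h _ c ?_ hc
  exact (ft_poly hA).trans (inferInstance : Algebra.FiniteType A[X] (AdjoinRoot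
    (X ^ 2 - C ((dA a φ).val (F.map (IsScalarTower.toAlgHom k A A[X]) a0, X)) : A[X][X])))

end Pool.Agent.Helper71.PN
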