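import Pool.Agent.Helper71.PN.Root

/-!
# From cones to the affine plane
-/

set_option autoImplicit false

namespace Pool.Agent.Helper71.PN

open Pool.Agent.Helper29.CQ Pool.Agent.Helper65.CC Pool.Agent.Helper87.CC
  Pool.Agent.Helper65.CC.KFn
open Pool.Agent.Helper29.PF (StableClass)
open Polynomial

variable {K : Type} [Field K]

/-- the value of a polynomial in two variables -/
noncomputable def ev2 (f : MvPolynomial (Fin 2) K) {R : Type} [CommRing R] [Algebra K R]
    (x y : R) : R := MvPolynomial.aeval ![x, y] f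

theorem ev2_map (f : MvPolynomial (Fin 2) K) {R S : Type} [CommRing R] [Algebra K R] [CommRing S]
    [Algebra K S] (g : R →ₐ[K] S) (x y : R) : g (ev2 f x y) = ev2 f (g x) (g y) := by
  have h1 : g.comp (MvPolynomial.aeval ![x, y]) = MvPolynomial.aeval ![g x, g y] := by
    apply MvPolynomial.algHom_ext
    intro i
    rw [AlgHom.comp_apply, MvPolynomial.aeval_X, MvPolynomial.aeval_X]
    fin_cases i <;> rfl
  exact DFunLike.congr_fun h1 f

/-- a polynomial as a function on the plane -/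
noncomputable def cd2 (f : MvPolynomial (Fin 2) K) : Coord (A2 K) where
  val x := ev2 f x.1 x.2
  nat g x := ev2_map f g x.1 x.2

/-- the surface `g ^ 2 φ(w) = f` -/
noncomputable def AF (f g : MvPolynomial (Fin 2) K) (φ : K[X]) : KFn K :=
  (A2 K).line.cls ⟨fun x => ev2 g x.1.1 x.1.2 ^ 2 * aeval x.2 φ - ev2 f x.1.1 x.1.2, fun h x => by
    rw [map_sub, map_mul, map_pow, ← aeval_algHom_apply, ev2_map, ev2_map]
    rfl⟩

instance (f g : MvPolynomial (Fin 2) K) (φ : K[X]) : Rp (AF f g φ) := by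
  unfold AF
  infer_instance

theorem rep_A2 : (A2 K).Rep (MvPolynomial (Fin 2) K) (MvPolynomial.X 0, MvPolynomial.X 1) := by
  intro R _ _ x
  refine ⟨MvPolynomial.aeval ![x.1, x.2], ?_, ?_⟩
  · change (MvPolynomial.aeval ![x.1, x.2] (MvPolynomial.X 0),
      MvPolynomial.aeval ![x.1, x.2] (MvPolynomial.X 1)) = x
    rw [MvPolynomial.aeval_X, MvPolynomial.aeval_X]
    rfl
  · intro g hg
    have h1 : (g (MvPolynomial.X 0), g (MvPolynomial.X 1)) = x := hg
    apply MvPolynomial.algHom_ext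
    intro i
    rw [MvPolynomial.aeval_X]
    fin_cases i
    · exact congrArg Prod.fst h1
    · exact congrArg Prod.snd h1

/-- the polynomial `g ^ 2 φ(w) - f` -/
noncomputable def gp (f g : MvPolynomial (Fin 2) K) (φ : K[X]) : (MvPolynomial (Fin 2) K)[X] :=
  C (g ^ 2) * φ.map (MvPolynomial.C : K →+* MvPolynomial (Fin 2) K) - C f

theorem rep_AF (f g : MvPolynomial (Fin 2) K) (φ : K[X]) :
    ∃ b, (AF f g φ).Rep (AdjoinRoot (gp f g φ)) b := by
  obtain ⟨b, hb⟩ := (rep_line' (rep_A2 (K := K))).cls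
    (⟨fun x => ev2 g x.1.1 x.1.2 ^ 2 * aeval x.2 φ - ev2 f x.1.1 x.1.2, fun h x => by
      rw [map_sub, map_mul, map_pow, ← aeval_algHom_apply, ev2_map, ev2_map]
      rfl⟩ : Coord (A2 K).line)
  have h1 : ∀ h : MvPolynomial (Fin 2) K, ev2 h (C (MvPolynomial.X 0) :
      (MvPolynomial (Fin 2) K)[X]) (C (MvPolynomial.X 1)) = C h := by
    intro h
    have h2 := ev2_map h (IsScalarTower.toAlgHom K (MvPolynomial (Fin 2) K)
      (MvPolynomial (Fin 2) K)[X]) (MvPolynomial.X 0) (MvPolynomial.X 1)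
    have h3 : ev2 h (MvPolynomial.X 0 : MvPolynomial (Fin 2) K) (MvPolynomial.X 1) = h := by
      have h4 : (MvPolynomial.aeval ![MvPolynomial.X 0, MvPolynomial.X 1] :
          MvPolynomial (Fin 2) K →ₐ[K] MvPolynomial (Fin 2) K) = AlgHom.id K _ := by
        apply MvPolynomial.algHom_ext
        intro i
        rw [MvPolynomial.aeval_X]
        fin_cases i <;> rfl
      exact DFunLike.congr_fun h4 h
    rw [h3] at h2
    exact h2.symm
  have h2 : ev2 g (C (MvPolynomial.X 0) : (MvPolynomial (Fin 2) K)[X]) (C (MvPolynomial.X 1)) ^ 2 *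
      aeval (X : (MvPolynomial (Fin 2) K)[X]) φ -
      ev2 f (C (MvPolynomial.X 0) : (MvPolynomial (Fin 2) K)[X]) (C (MvPolynomial.X 1)) =
      gp f g φ := by
    rw [h1, h1, aeval_X_left_eq_map, gp, C_pow]
    rfl
  change ∃ b, (AF f g φ).Rep ((MvPolynomial (Fin 2) K)[X] ⧸ Ideal.span {gp f g φ}) b
  rw [← h2]
  exact ⟨b, hb⟩

variable {p : ℕ} {P : ∀ (A : Type) [CommRing A], Prop}

/-- the function `f / g ^ 2` -/
noncomputable def aAF (f g : MvPolynomial (Fin 2) K) : Coord ((A2 K).opn (cd2 g)) where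
  val x := ev2 f x.1.1 x.1.2 * Ring.inverse (ev2 g x.1.1 x.1.2) ^ 2
  nat h x := by
    have h1 : IsUnit (ev2 g x.1.1 x.1.2) := x.2
    rw [map_mul, map_pow, inv_nat h h1, ev2_map, ev2_map]
    rfl

theorem mem_A2A3 [Finite K] (hP : FormalClass p P) (hk : (p : K) = 0)
    (f g : MvPolynomial (Fin 2) K) (φ : K[X])
    (h : (rootF ((A2 K).opn (cd2 g)) (aAF f g) φ).Mem (fun R _ _ => P R)) :
    (AF f g φ).Mem (fun R _ _ => P R) := by
  have hG := gops_k hP K hk
  let gC : Coord (AF f g φ) := ⟨fun x => ev2 g x.1.1.1 x.1.1.2, fun h x => ev2_map g h _ _⟩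
  refine Mem.glue hG.toKOps gC (Mem.of_iso ?_ h) ?_
  · exact
      { hom := fun {R} _ _ x => ⟨(⟨x.1.1.1, x.2⟩, x.1.1.2), by
          have h1 : ev2 g x.1.1.1.1 x.1.1.1.2 ^ 2 * aeval x.1.1.2 φ -
            ev2 f x.1.1.1.1 x.1.1.1.2 = 0 := x.1.2
          have h2 : IsUnit (ev2 g x.1.1.1.1 x.1.1.1.2) := x.2
          have h3 := Ring.mul_inverse_cancel _ h2
          change aeval x.1.1.2 φ - ev2 f x.1.1.1.1 x.1.1.1.2 *
            Ring.inverse (ev2 g x.1.1.1.1 x.1.1.1.2) ^ 2 = 0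
          set i := Ring.inverse (ev2 g x.1.1.1.1 x.1.1.1.2)
          set γ := ev2 g x.1.1.1.1 x.1.1.1.2
          linear_combination i ^ 2 * h1 - aeval x.1.1.2 φ * (γ * i + 1) * h3⟩
        inv := fun {R} _ _ y => ⟨⟨(y.1.1.1, y.1.2), by
          have h1 : aeval y.1.2 φ - ev2 f y.1.1.1.1 y.1.1.1.2 *
            Ring.inverse (ev2 g y.1.1.1.1 y.1.1.1.2) ^ 2 = 0 := y.2
          have h2 : IsUnit (ev2 g y.1.1.1.1 y.1.1.1.2) := y.1.1.2
          have h3 := Ring.mul_inverse_cancel _ h2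
          change ev2 g y.1.1.1.1 y.1.1.1.2 ^ 2 * aeval y.1.2 φ - ev2 f y.1.1.1.1 y.1.1.1.2 = 0
          set i := Ring.inverse (ev2 g y.1.1.1.1 y.1.1.1.2)
          set γ := ev2 g y.1.1.1.1 y.1.1.1.2
          linear_combination γ ^ 2 * h1 + ev2 f y.1.1.1.1 y.1.1.1.2 * (γ * i + 1) * h3⟩, y.1.1.2⟩
        inv_hom := fun _ => rfl
        hom_inv := fun _ => rfl
        nat := fun _ _ => rfl }
  · -- the part `g = f = 0`
    have e : Iso ((AF f g φ).cls gC) (((A2 K).cls (cd2 g)).cls (resC _ (cd2 f))).line :=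
      { hom := fun {R} _ _ x => (⟨⟨x.1.1.1, x.2⟩, by
          have h1 : ev2 g x.1.1.1.1 x.1.1.1.2 ^ 2 * aeval x.1.1.2 φ -
            ev2 f x.1.1.1.1 x.1.1.1.2 = 0 := x.1.2
          have h2 : ev2 g x.1.1.1.1 x.1.1.1.2 = 0 := x.2
          rw [h2] at h1
          change ev2 f x.1.1.1.1 x.1.1.1.2 = 0
          linear_combination -h1⟩, x.1.1.2)
        inv := fun {R} _ _ y => ⟨⟨(y.1.1.1, y.2), by
          have h1 : ev2 f y.1.1.1.1 y.1.1.1.2 = 0 := y.1.2
          have h2 : ev2 g y.1.1.1.1 y.1.1.1.2 = 0 := y.1.1.2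
          change ev2 g y.1.1.1.1 y.1.1.1.2 ^ 2 * aeval y.2 φ - ev2 f y.1.1.1.1 y.1.1.1.2 = 0
          rw [h1, h2]
          ring⟩, y.1.1.2⟩
        inv_hom := fun _ => rfl
        hom_inv := fun _ => rfl
        nat := fun _ _ => rfl }
    refine Mem.of_iso e (Mem.line hG.toKOps ?_)
    have hPC : ∀ h : MvPolynomial (Fin 2) K, h ≠ 0 → D1 ((A2 K).cls (cd2 h)) := fun h hh =>
      D1.curve hh
    by_cases hg : g = 0
    · have e' : Iso (((A2 K).cls (cd2 g)).cls (resC _ (cd2 f))) ((A2 K).cls (cd2 f)) :=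
        { hom := fun {R} _ _ x => ⟨x.1.1, x.2⟩
          inv := fun {R} _ _ y => ⟨⟨y.1, by
            change ev2 g y.1.1 y.1.2 = 0
            rw [hg]
            exact map_zero _⟩, y.2⟩
          inv_hom := fun _ => rfl
          hom_inv := fun _ => rfl
          nat := fun _ _ => rfl }
      refine Mem.of_iso e' ?_
      by_cases hf : f = 0
      · refine Mem.of_iso (F' := A2 K) ?_ (mem_A2 hG)
        exact
          { hom := fun {R} _ _ x => x.1
            inv := fun {R} _ _ y => ⟨y, by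
              change ev2 f y.1 y.2 = 0
              rw [hf]
              exact map_zero _⟩
            inv_hom := fun _ => rfl
            hom_inv := fun _ => rfl
            nat := fun _ _ => rfl }
      · exact D1.mem hP hk (hPC f hf)
    · exact D1.mem hP hk ((hPC g hg).cls _)

/-- **From the cone to the affine plane**: `F` a functor with an action of the multiplicative
group, `a` an invariant function, `z` a coordinate of weight one with slice the open part `g ≠ 0`
of the plane. -/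
theorem cone_aff [Finite K] (hP : StableClass p P) (hk : (p : K) = 0) (h2 : (2 : K) ≠ 0)
    {F : KFn K} [Rp F] (s : Sc F) (a : Coord F) (φ : K[X])
    (ha : ∀ {R : Type} [CommRing R] [Algebra K R] (t : Rˣ) (x : F.obj R),
      a.val (s.sc t x) = a.val x) (z : Coord F)
    (hz : ∀ {R : Type} [CommRing R] [Algebra K R] (t : Rˣ) (y : F.obj R),
      z.val (s.sc t y) = t * z.val y)
    (hm : (rootF F a φ).Mem (fun R _ _ => P R))
    (h0 : (rootF (F.cls z) (resC z a) φ).Mem (fun R _ _ => P R))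
    (f g : MvPolynomial (Fin 2) K) (e : Iso ((A2 K).opn (cd2 g)) (F.cls (subC z 1)))
    (he : ∀ {R : Type} [CommRing R] [Algebra K R] (x : ((A2 K).opn (cd2 g)).obj R),
      a.val (e.hom x).1 = (aAF f g).val x) : (AF f g φ).Mem (fun R _ _ => P R) := by
  have hG := gops_k hP.toFormalClass K hk
  refine mem_A2A3 hP.toFormalClass hk f g φ ?_
  have h1 : ((rootF F a φ).cls (subC (prC z) 1)).Mem (fun R _ _ => P R) :=
    Sc.slice hG h2 (fun R _ _ h => hP.line R h) (s.root a φ ha) (prC z) (fun t y => hz t y.1.1) hm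
      (Mem.of_iso (rootCls a φ z) h0)
  refine Mem.of_iso (rootIso e (aAF f g) (resC _ a) φ (fun x => he x)) ?_
  exact Mem.of_iso (rootCls a φ (subC z 1)).symm h1

end Pool.Agent.Helper71.PN
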