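import Pool.Agent.Helper71.PN.Root
import Pool.Agent.Helper49.QP.Fb.Base

/-!
# Transfer along finite extensions of the base field
-/

set_option autoImplicit false

namespace Pool.Agent.Helper71.PN

open Pool.Agent.Helper29.CQ Pool.Agent.Helper65.CC Pool.Agent.Helper87.CC
  Pool.Agent.Helper65.CC.KFn
open Pool.Agent.Helper49.QP (bc rep_bc)
open TensorProduct

variable {p : ℕ} {P : ∀ (A : Type) [CommRing A], Prop}

/-- transfer along a finite extension of the base field -/
theorem mem_ext (hP : FormalClass p P) {k : Type} [Field k] [Finite k] {k' : Type} [Field k']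
    [Algebra k k'] [Module.Finite k k'] {F : KFn k} (h : (bc k' F).Mem (fun R _ _ => P R)) :
    F.Mem (fun R _ _ => P R) := by
  intro A _ _ a hA ha
  obtain ⟨w, hw⟩ := rep_bc (K := k') ha
  have hft : Algebra.FiniteType k' (k' ⊗[k] A) := Algebra.FiniteType.baseChange _
  have h1 : P (k' ⊗[k] A) := h _ w hft hw
  rcases subsingleton_or_nontrivial A with h0 | h0
  · exact Pool.Agent.Helper67.CQ.p_zero hP h0
  have h2 : P (A ⊗[k] k') := hP.iso _ _ (Algebra.TensorProduct.comm k k' A).toRingEquiv h1
  have h3 : Module.Free A (A ⊗[k] k') := inferInstance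
  have h4 : Module.Finite A (A ⊗[k] k') := inferInstance
  have h5 : Nontrivial (A ⊗[k] k') := by
    obtain ⟨i⟩ := (Module.Free.chooseBasis k k').index_nonempty
    let b := Module.Basis.baseChange A (Module.Free.chooseBasis k k')
    exact ⟨⟨b i, 0, b.ne_zero i⟩⟩
  exact hP.transfer A (A ⊗[k] k') (ft_alg (ft_fin k) hA) h2

end Pool.Agent.Helper71.PN
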