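import Pool.Agent.Helper71.PN.Insep
import Pool.Agent.Helper29.PF.Pencil
import Pool.Agent.Helper67.CQ.TK

/-!
# Sums with an additive polynomial
-/

set_option autoImplicit false

namespace Pool.Agent.Helper71.PN

open Pool.Agent.Helper29.CQ Pool.Agent.Helper65.CC Pool.Agent.Helper87.CC
  Pool.Agent.Helper65.CC.KFn
open Pool.Agent.Helper29.PF (Pk kops pw pwZero pwSucc HT ev elC quoC rp_HT rep_HT lev ZfT
  of_mem_ZfT tgC tgOpn tgCls pwT pwIso mem_pw Hq mem_hq)
open Pool.Agent.Helper67.CQ (IsTK p_tk)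
open Polynomial TensorProduct

variable {p : ℕ} {P : ∀ (A : Type) [CommRing A], Prop} {k : Type} [Field k]

/-! ### Products -/

/-- the product of two functors -/
def prF (F C : KFn k) : KFn k where
  obj R _ _ := F.obj R × C.obj R
  map f x := (F.map f x.1, C.map f x.2)
  id_map x := Prod.ext (F.id_map x.1) (C.id_map x.2)
  comp_map f g x := Prod.ext (F.comp_map f g x.1) (C.comp_map f g x.2)

theorem rep_prF {F C : KFn k} {A W : Type} [CommRing A] [Algebra k A] [CommRing W] [Algebra k W]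
    {a : F.obj A} {w : C.obj W} (ha : F.Rep A a) (hw : C.Rep W w) :
    ∃ b, (prF F C).Rep (A ⊗[k] W) b := by
  let ι : A →ₐ[k] A ⊗[k] W := Algebra.TensorProduct.includeLeft
  let ι' : W →ₐ[k] A ⊗[k] W := Algebra.TensorProduct.includeRight
  refine ⟨(F.map ι a, C.map ι' w), ?_⟩
  intro R _ _ x
  obtain ⟨f, hf, hfu⟩ := ha R x.1
  obtain ⟨g, hg, hgu⟩ := hw R x.2
  let l : A ⊗[k] W →ₐ[k] R := Algebra.TensorProduct.lift f g (fun _ _ => Commute.all _ _)
  have h1 : l.comp ι = f := Algebra.TensorProduct.lift_comp_includeLeft f g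
    (fun _ _ => Commute.all _ _)
  have h2 : l.comp ι' = g := Algebra.TensorProduct.lift_comp_includeRight f g
    (fun _ _ => Commute.all _ _)
  refine ⟨l, ?_, ?_⟩
  · refine Prod.ext ?_ ?_
    · change F.map l (F.map ι a) = x.1
      rw [← F.comp_map, h1, hf]
    · change C.map l (C.map ι' w) = x.2
      rw [← C.comp_map, h2, hg]
  · intro l' hl'
    have h3 : l'.comp ι = f := by
      apply hfu
      rw [F.comp_map]
      exact congrArg Prod.fst hl'
    have h4 : l'.comp ι' = g := by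
      apply hgu
      rw [C.comp_map]
      exact congrArg Prod.snd hl'
    apply Algebra.TensorProduct.ext
    · exact h3.trans h1.symm
    · exact h4.trans h2.symm

theorem isTK_tensor (A W : Type) [CommRing A] [Algebra k A] [CommRing W] [Algebra k W] :
    IsTK k (Algebra.TensorProduct.includeLeftRingHom : A →+* A ⊗[k] W)
      ((Algebra.TensorProduct.includeRight : W →ₐ[k] A ⊗[k] W) : W →+* A ⊗[k] W) where
  comm s := by
    change (algebraMap k A s) ⊗ₜ[k] (1 : W) = (1 : A) ⊗ₜ[k] (algebraMap k W s)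
    rw [Algebra.algebraMap_eq_smul_one, Algebra.algebraMap_eq_smul_one, TensorProduct.smul_tmul]
  ex E _ u v h := by
    let _ : Algebra k E := (u.comp (algebraMap k A)).toAlgebra
    let u' : A →ₐ[k] E := { u with commutes' := fun s => rfl }
    let v' : W →ₐ[k] E := { v with commutes' := fun s => (h s).symm }
    let l : A ⊗[k] W →ₐ[k] E := Algebra.TensorProduct.lift u' v' (fun _ _ => Commute.all _ _)
    refine ⟨(l : A ⊗[k] W →+* E), ?_, ?_⟩
    · ext x
      change l (x ⊗ₜ[k] (1 : W)) = u x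
      rw [Algebra.TensorProduct.lift_tmul, map_one, mul_one]
      rfl
    · ext x
      change l ((1 : A) ⊗ₜ[k] x) = v x
      rw [Algebra.TensorProduct.lift_tmul, map_one, one_mul]
      rfl
  uniq E _ h h' h1 h2 := by
    refine RingHom.ext fun z => ?_
    induction z using TensorProduct.induction_on with
    | zero => rw [map_zero, map_zero]
    | tmul x y =>
      have h3 : x ⊗ₜ[k] y = (x ⊗ₜ[k] (1 : W)) * ((1 : A) ⊗ₜ[k] y) := by
        rw [Algebra.TensorProduct.tmul_mul_tmul, mul_one, one_mul]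
      rw [h3, map_mul, map_mul]
      congr 1
      · exact RingHom.congr_fun h1 x
      · exact RingHom.congr_fun h2 y
    | add x y hx hy => rw [map_add, map_add, hx, hy]

theorem mem_prF [Finite k] (hP : FormalClass p P) (hk : (p : k) = 0) {F C : KFn k} [hF : Rp F]
    [hC : Rp C] (h1 : F.Mem (Pk P k)) (h2 : C.Mem (Pk P k)) : (prF F C).Mem (Pk P k) := by
  obtain ⟨A, _, _, a, hA, ha⟩ := hF.out
  obtain ⟨W, _, _, w, hW, hw⟩ := hC.out
  obtain ⟨b, hb⟩ := rep_prF ha hw
  exact Mem.of_rep (kops hP hk) hb (p_tk hP (isTK_tensor A W) (h1 A a hA ha) (h2 W w hW hw))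

/-! ### Additive polynomials -/

theorem aeval_sub_add (hp : p.Prime) (hk : (p : k) = 0) (φ : k[X])
    (h1 : ∀ m ∈ φ.support, ∃ i, m = p ^ i) {R : Type} [CommRing R] [Algebra k R] (s t : R) :
    aeval (s - t) φ = aeval s φ - aeval t φ := by
  rcases subsingleton_or_nontrivial R with h0 | h0
  · exact Subsingleton.elim _ _
  have hpR : (p : R) = 0 := by rw [← map_natCast (algebraMap k R), hk, map_zero]
  have : Fact p.Prime := ⟨hp⟩
  have hch : CharP R p := (CharP.charP_iff_prime_eq_zero hp).2 hpR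
  have key : ∀ u : R, aeval u φ = ∑ m ∈ φ.support, algebraMap k R (φ.coeff m) * u ^ m := by
    intro u
    rw [aeval_def, eval₂_eq_sum, Polynomial.sum]
  rw [key, key, key, ← Finset.sum_sub_distrib]
  refine Finset.sum_congr rfl fun m hm => ?_
  obtain ⟨i, rfl⟩ := h1 m hm
  rw [sub_pow_char_pow, mul_sub]

theorem add_degree (hp : p.Prime) {φ : k[X]} (h1 : ∀ m ∈ φ.support, ∃ i, m = p ^ i)
    (h0 : φ ≠ 0) : 0 < φ.natDegree := by
  obtain ⟨i, hi⟩ := h1 φ.natDegree (natDegree_mem_support_of_nonzero h0)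
  rw [hi]
  exact pow_pos hp.pos i

/-- transfer along roots of polynomials with constant coefficients -/
theorem mem_of_root' {G : ∀ (R : Type) [CommRing R] [Algebra k R], Prop} (hG : GOps k G)
    {F : KFn k} (a : Coord F) (φ : k[X]) (hd : 0 < φ.natDegree)
    (h : (rootF F a φ).Mem G) : F.Mem G := by
  have h0 : φ ≠ 0 := fun h => by rw [h, natDegree_zero] at hd; exact absurd hd (lt_irrefl 0)
  have hl : φ.leadingCoeff ≠ 0 := leadingCoeff_ne_zero.2 h0
  let a' : Coord F := ⟨fun {R} _ _ x => algebraMap k R φ.leadingCoeff⁻¹ * a.val x, fun f x => by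
    rw [map_mul, AlgHom.commutes, a.nat]⟩
  have hmon : (C φ.leadingCoeff⁻¹ * φ).Monic :=
    monic_C_mul_of_mul_leadingCoeff_eq_one (inv_mul_cancel₀ hl)
  have hdeg : 0 < (C φ.leadingCoeff⁻¹ * φ).natDegree := by
    rw [natDegree_C_mul (inv_ne_zero hl)]
    exact hd
  have hinv : ∀ (R : Type) [CommRing R] [Algebra k R],
      algebraMap k R φ.leadingCoeff * algebraMap k R φ.leadingCoeff⁻¹ = 1 := by
    intro R _ _
    rw [← map_mul, mul_inv_cancel₀ hl, map_one]
  refine mem_of_root hG a' (C φ.leadingCoeff⁻¹ * φ) hmon hdeg (Mem.of_iso ?_ h)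
  exact
    { hom := fun {R} _ _ x => ⟨x.1, by
        have h1 : aeval x.1.2 (C φ.leadingCoeff⁻¹ * φ) -
          algebraMap k R φ.leadingCoeff⁻¹ * a.val x.1.1 = 0 := x.2
        rw [map_mul, aeval_C] at h1
        change aeval x.1.2 φ - a.val x.1.1 = 0
        have h2 := hinv R
        linear_combination algebraMap k R φ.leadingCoeff * h1 -
          (aeval x.1.2 φ - a.val x.1.1) * h2⟩
      inv := fun {R} _ _ y => ⟨y.1, by
        have h1 : aeval y.1.2 φ - a.val y.1.1 = 0 := y.2
        change aeval y.1.2 (C φ.leadingCoeff⁻¹ * φ) -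
          algebraMap k R φ.leadingCoeff⁻¹ * a.val y.1.1 = 0
        rw [map_mul, aeval_C]
        linear_combination algebraMap k R φ.leadingCoeff⁻¹ * h1⟩
      inv_hom := fun _ => rfl
      hom_inv := fun _ => rfl
      nat := fun _ _ => rfl }

/-! ### One more summand -/

/-- the function `a(x) - h(z)` -/
noncomputable def joC {F : KFn k} (a : Coord F) (h : k[X]) : Coord F.line where
  val x := a.val x.1 - aeval x.2 h
  nat f x := by
    rw [map_sub, ← aeval_algHom_apply, a.nat]
    rfl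

/-- the point of the line -/
def lp {R : Type} [CommRing R] [Algebra k R] (x : (A1 k).obj R) : R := x

/-- the function `-h(z)` on the line -/
noncomputable def neC (k : Type) [Field k] (h : k[X]) : Coord (A1 k) where
  val x := -aeval (lp x) h
  nat f x := by
    rw [map_neg, ← aeval_algHom_apply]
    rfl

/-- the function `-h(z)` on the cover -/
noncomputable def neR {F : KFn k} (a : Coord F) (φ h : k[X]) :
    Coord (rootF F.line (joC a h) φ) where
  val x := -aeval x.1.1.2 h
  nat f x := by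
    rw [map_neg, ← aeval_algHom_apply]
    rfl

/-- the two covers -/
noncomputable def joIso (hp : p.Prime) (hk : (p : k) = 0) {F : KFn k} (a : Coord F) (φ : k[X])
    (h1 : ∀ m ∈ φ.support, ∃ i, m = p ^ i) (h : k[X]) :
    Iso (rootF (rootF F.line (joC a h) φ) (neR a φ h) φ)
      (prF (rootF F a φ) (rootF (A1 k) (neC k h) φ)) where
  hom {R} _ _ x := (⟨(x.1.1.1.1.1, x.1.1.1.2 - x.1.2), by
      have h2 : aeval x.1.1.1.2 φ - (a.val x.1.1.1.1.1 - aeval x.1.1.1.1.2 h) = 0 := x.1.1.2
      have h3 : aeval x.1.2 φ - (-aeval x.1.1.1.1.2 h) = 0 := x.2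
      change aeval (x.1.1.1.2 - x.1.2) φ - a.val x.1.1.1.1.1 = 0
      rw [aeval_sub_add hp hk φ h1]
      linear_combination h2 - h3⟩,
    ⟨(x.1.1.1.1.2, x.1.2), x.2⟩)
  inv {R} _ _ y := ⟨(⟨((y.1.1.1, y.2.1.1), y.1.1.2 + y.2.1.2), by
      have h2 : aeval y.1.1.2 φ - a.val y.1.1.1 = 0 := y.1.2
      have h3 : aeval y.2.1.2 φ - (-aeval (lp y.2.1.1) h) = 0 := y.2.2
      change aeval (y.1.1.2 + y.2.1.2) φ - (a.val y.1.1.1 - aeval (lp y.2.1.1) h) = 0
      have h4 := aeval_sub_add hp hk φ h1 (y.1.1.2 + y.2.1.2) y.2.1.2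
      rw [add_sub_cancel_right] at h4
      linear_combination h2 + h3 - h4⟩, y.2.1.2), y.2.2⟩
  inv_hom x := by
    apply Subtype.ext
    refine Prod.ext ?_ rfl
    apply Subtype.ext
    refine Prod.ext rfl ?_
    exact sub_add_cancel _ _
  hom_inv y := by
    refine Prod.ext ?_ rfl
    apply Subtype.ext
    refine Prod.ext rfl ?_
    exact add_sub_cancel_right _ _
  nat f x := by
    refine Prod.ext ?_ rfl
    apply Subtype.ext
    refine Prod.ext rfl ?_
    exact map_sub f _ _

/-- **one more summand** -/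
theorem mem_addJ [Finite k] (hP : FormalClass p P) (hp : p.Prime) (hk : (p : k) = 0) {F : KFn k}
    [Rp F] (a : Coord F) (φ : k[X]) (h1 : ∀ m ∈ φ.support, ∃ i, m = p ^ i) (h0 : φ ≠ 0)
    (h : k[X]) (hm : (rootF F a φ).Mem (Pk P k)) :
    (rootF F.line (joC a h) φ).Mem (Pk P k) := by
  have hd := add_degree hp h1 h0
  have hC : (rootF (A1 k) (neC k h) φ).Mem (Pk P k) :=
    D1.mem hP hk (D1.line1.root (neC k h) φ hd)
  exact mem_of_root' (gops_k hP k hk) (neR a φ h) φ hd
    (Mem.of_iso (joIso hp hk a φ h1 h) (mem_prF hP hk hm hC))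

/-! ### Several summands -/

/-- the function `a(x) - h_1(z_1) - ... - h_m(z_m)` -/
noncomputable def suC {F : KFn k} (a : Coord F) {m : ℕ} (h : Fin m → k[X]) : Coord (pw F m) where
  val x := a.val x.1 - ∑ j, aeval (x.2 j) (h j)
  nat f x := by
    rw [map_sub, map_sum, a.nat]
    congr 1
    refine Finset.sum_congr rfl fun j _ => ?_
    rw [← aeval_algHom_apply]
    rfl

theorem mem_sums [Finite k] (hP : FormalClass p P) (hp : p.Prime) (hk : (p : k) = 0) {F : KFn k}
    [Rp F] (a : Coord F) (φ : k[X]) (h1 : ∀ m ∈ φ.support, ∃ i, m = p ^ i) (h0 : φ ≠ 0)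
    (hm : (rootF F a φ).Mem (Pk P k)) {m : ℕ} :
    ∀ h : Fin m → k[X], (rootF (pw F m) (suC a h) φ).Mem (Pk P k) := by
  induction m with
  | zero =>
    intro h
    refine Mem.of_iso (rootIso (pwZero F) (suC a h) a φ fun x => ?_) hm
    change a.val x.1 = a.val x.1 - ∑ j : Fin 0, _
    rw [Finset.univ_eq_empty, Finset.sum_empty, sub_zero]
  | succ m ih =>
    intro h
    refine Mem.of_iso (rootIso (pwSucc F m) (suC a h) (joC (suC a (Fin.tail h)) (h 0)) φ
      fun x => ?_) (mem_addJ hP hp hk (suC a (Fin.tail h)) φ h1 h0 (h 0) (ih (Fin.tail h)))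
    change (a.val x.1 - ∑ j : Fin m, aeval (Fin.tail x.2 j) (Fin.tail h j)) - aeval (x.2 0) (h 0) =
      a.val x.1 - ∑ j, aeval (x.2 j) (h j)
    rw [Fin.sum_univ_succ]
    change (a.val x.1 - ∑ j : Fin m, aeval (x.2 j.succ) (h j.succ)) - aeval (x.2 0) (h 0) = _
    ring

end Pool.Agent.Helper71.PN
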