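import Pool.Agent.Helper71.PN.Tower
import Pool.Agent.Helper67.SF.Main

/-!
# From covers to sums of polynomials in one variable
-/

set_option autoImplicit false

namespace Pool.Agent.Helper71.PN

open Pool.Agent.Helper29.CQ Pool.Agent.Helper65.CC Pool.Agent.Helper87.CC
  Pool.Agent.Helper65.CC.KFn
open Pool.Agent.Helper67.CQ (Simplex mem_simplex GoodD)
open Polynomial

variable {p : ℕ} {P : ∀ (A : Type) [CommRing A], Prop} {k : Type} [Field k]

theorem sumP_mon {m : ℕ} {h : Fin m → k[X]} {c : Fin m → k} {n : Fin m → ℕ}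
    (hh : ∀ j, h j = C (c j) * X ^ n j) :
    sumP h = ∑ j, MvPolynomial.monomial (Finsupp.single j (n j)) (c j) := by
  rw [sumP]
  refine Finset.sum_congr rfl fun j _ => ?_
  rw [hh, map_mul, aeval_C, map_pow, aeval_X, MvPolynomial.algebraMap_eq,
    MvPolynomial.C_mul_X_pow_eq_monomial]

theorem sumP_support {m : ℕ} {h : Fin m → k[X]} {c : Fin m → k} {n : Fin m → ℕ}
    (hh : ∀ j, h j = C (c j) * X ^ n j) {e : Fin m →₀ ℕ} (he : e ∈ (sumP h).support) :
    ∃ j, e = Finsupp.single j (n j) := by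
  classical
  rw [sumP_mon hh, MvPolynomial.mem_support_iff] at he
  by_contra hcon
  push Not at hcon
  refine he ?_
  rw [MvPolynomial.coeff_sum]
  refine Finset.sum_eq_zero fun j _ => ?_
  rw [MvPolynomial.coeff_monomial, if_neg (hcon j).symm]

theorem simplex_fermat {m : ℕ} {h : Fin m → k[X]} {c : Fin m → k} {n : Fin m → ℕ}
    (hn : ∀ j, 0 < n j) (hh : ∀ j, h j = C (c j) * X ^ n j) : Simplex (sumP h) := by
  rw [Simplex, affineIndependent_iff]
  intro S w _ hw e he
  obtain ⟨j, hj⟩ := sumP_support hh e.2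
  have h1 := congrFun hw j
  rw [Finset.sum_apply, Pi.zero_apply, Finset.sum_eq_single_of_mem e he] at h1
  · rw [Pi.smul_apply, smul_eq_mul, hj, Finsupp.single_eq_same] at h1
    exact (mul_eq_zero.1 h1).resolve_right (by exact_mod_cast (hn j).ne')
  · intro e' _ hne
    obtain ⟨j', hj'⟩ := sumP_support hh e'.2
    rw [Pi.smul_apply, hj', Finsupp.single_apply, if_neg, Nat.cast_zero, smul_zero]
    rintro rfl
    exact hne (Subtype.ext (hj'.trans hj.symm))

/-- diagonal forms -/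
theorem good_fermat [Finite k] (hP : FormalClass p P) (hp : p.Prime) (hk : (p : k) = 0) {m : ℕ}
    {h : Fin m → k[X]} {c : Fin m → k} {n : Fin m → ℕ} (hn : ∀ j, 0 < n j)
    (hh : ∀ j, h j = C (c j) * X ^ n j) : GoodD P (sumP h) (∏ j, n j) := by
  have he : ((∏ j, n j : ℕ) : ℤ) ≠ 0 := by
    exact_mod_cast (Finset.prod_pos fun j _ => hn j).ne'
  have hd : ∀ j, n j ∣ ∏ j, n j := fun j => Finset.dvd_prod_of_mem n (Finset.mem_univ j)
  choose w hw using hd
  have hwh : MvPolynomial.IsWeightedHomogeneous (fun j => (w j : ℤ)) (sumP h)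
      ((∏ j, n j : ℕ) : ℤ) := by
    intro e he
    obtain ⟨j, rfl⟩ := sumP_support hh (MvPolynomial.mem_support_iff.2 he)
    rw [Finsupp.weight_single, hw j, nsmul_eq_mul, Nat.cast_mul]
  have h1 := simplex_fermat hn hh
  refine ⟨(Finset.prod_pos fun j _ => hn j).ne', ⟨_, hwh⟩, (mem_simplex hp hP hk h1).1, ?_⟩
  exact (mem_simplex hp hP hk (Pool.Agent.Helper67.SF.simplex_sub_one h1 he hwh)).1

/-- **From covers to sums of polynomials in one variable**: all summands are monomials, or one of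
them is additive. -/
theorem tower_sums [Finite k] (hP : FormalClass p P) (hp : p.Prime) (hk : (p : k) = 0)
    {B : Type} [CommRing B] [Algebra k B] (hB : Algebra.FiniteType k B) {a b : B} {m : ℕ}
    (h : Fin m → k[X])
    (hh : (∀ j, ∃ (c : k) (n : ℕ), 0 < n ∧ h j = C c * X ^ n) ∨
      ∃ j, h j ≠ 0 ∧ ∀ e ∈ (h j).support, ∃ i, e = p ^ i)
    (h1 : ∀ φ : k[X], ((∃ n, 0 < n ∧ φ = X ^ n) ∨ (φ ≠ 0 ∧ ∀ e ∈ φ.support, ∃ i, e = p ^ i)) →
      P (AdjoinRoot (C b * φ.map (algebraMap k B) - C a : B[X])))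
    (h2 : P (B ⧸ Ideal.span {a})) (h3 : P (B ⧸ Ideal.span {b, a})) :
    P (MvPolynomial (Fin m) B ⧸ Ideal.span {MvPolynomial.C b *
      MvPolynomial.map (algebraMap k B) (sumP h) - MvPolynomial.C a}) := by
  rcases hh with hh | ⟨j, h4, h5⟩
  · choose c n hn hh using hh
    refine Pool.Agent.Helper29.PF.tower_forms hP hk hB (good_fermat hP hp hk hn hh) ?_ h2 h3
    have h4 := h1 (X ^ (∏ j, n j)) (Or.inl ⟨_, Finset.prod_pos fun j _ => hn j, rfl⟩)
    rw [Polynomial.map_pow, map_X] at h4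
    exact h4
  · exact tower_additive hP hp hk hB h j h4 h5 (h1 _ (Or.inr ⟨h4, h5⟩)) h3

end Pool.Agent.Helper71.PN
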