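import Pool.Agent.Helper71.PN.Join

/-!
# From covers to sums with an additive summand
-/

set_option autoImplicit false

namespace Pool.Agent.Helper71.PN

open Pool.Agent.Helper29.CQ Pool.Agent.Helper65.CC Pool.Agent.Helper87.CC
  Pool.Agent.Helper65.CC.KFn
open Pool.Agent.Helper29.PF (Pk kops pw pwZero pwSucc HT ev elC quoC rp_HT rep_HT lev ZfT
  of_mem_ZfT tgC tgOpn tgCls pwT pwIso mem_pw Hq mem_hq)
open Polynomial

variable {p : ℕ} {P : ∀ (A : Type) [CommRing A], Prop} {k : Type} [Field k]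
variable {B : Type} [CommRing B] [Algebra k B]

/-- the cover `b φ(w) = a` -/
noncomputable def covF (k : Type) [Field k] {B : Type} [CommRing B] [Algebra k B] (b a : B)
    (φ : k[X]) : KFn k :=
  (HT k B).line.cls ⟨fun x => ev x.1 b * aeval x.2 φ - ev x.1 a, fun f x => by
    rw [map_sub, map_mul, ← aeval_algHom_apply]
    rfl⟩

theorem mem_cov [Finite k] (hP : FormalClass p P) (hk : (p : k) = 0) {a b : B} {φ : k[X]}
    (h : P (AdjoinRoot (C b * φ.map (algebraMap k B) - C a : B[X]))) :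
    (covF k b a φ).Mem (Pk P k) := by
  obtain ⟨c, hc⟩ := (rep_line' (rep_HT (k := k) (B := B))).cls
    (⟨fun x => ev x.1 b * aeval x.2 φ - ev x.1 a, fun f x => by
      rw [map_sub, map_mul, ← aeval_algHom_apply]
      rfl⟩ : Coord (HT k B).line)
  refine Mem.of_rep (kops hP hk) hc ?_
  have h1 : (C b * φ.map (algebraMap k B) - C a : B[X]) =
      (IsScalarTower.toAlgHom k B B[X]) b * aeval (X : B[X]) φ -
        (IsScalarTower.toAlgHom k B B[X]) a := by
    rw [aeval_X_left_eq_map]
    rfl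
  rw [h1] at h
  exact h

/-- the open part of the cover -/
noncomputable def covIso (b a : B) (φ : k[X]) :
    Iso (rootF ((HT k B).opn (elC k b)) (quoC k b a) φ)
      ((covF k b a φ).opn ⟨fun x => ev x.1.1 b, fun _ _ => rfl⟩) where
  hom x := ⟨⟨(x.1.1.1, x.1.2), by
    have h1 : aeval x.1.2 φ - ev x.1.1.1 a * Ring.inverse (ev x.1.1.1 b) = 0 := x.2
    have h3 : IsUnit (ev x.1.1.1 b) := x.1.1.2
    have h4 := Ring.mul_inverse_cancel _ h3
    change ev x.1.1.1 b * aeval x.1.2 φ - ev x.1.1.1 a = 0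
    linear_combination (ev x.1.1.1 b) * h1 + ev x.1.1.1 a * h4⟩, x.1.1.2⟩
  inv y := ⟨(⟨y.1.1.1, y.2⟩, y.1.1.2), by
    have h1 : ev y.1.1.1 b * aeval y.1.1.2 φ - ev y.1.1.1 a = 0 := y.1.2
    have h3 : IsUnit (ev y.1.1.1 b) := y.2
    have h4 := Ring.mul_inverse_cancel _ h3
    change aeval y.1.1.2 φ - ev y.1.1.1 a * Ring.inverse (ev y.1.1.1 b) = 0
    linear_combination (Ring.inverse (ev y.1.1.1 b)) * h1 - aeval y.1.1.2 φ * h4⟩
  inv_hom _ := rfl
  hom_inv _ := rfl
  nat _ _ := rfl

/-- the sum of polynomials in one variable -/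
noncomputable def sumP {m : ℕ} (h : Fin m → k[X]) : MvPolynomial (Fin m) k :=
  ∑ j, aeval (MvPolynomial.X j) (h j)

theorem aeval_sumP {m : ℕ} (h : Fin m → k[X]) {R : Type} [CommRing R] [Algebra k R]
    (z : Fin m → R) : MvPolynomial.aeval z (sumP h) = ∑ j, aeval (z j) (h j) := by
  rw [sumP, map_sum]
  refine Finset.sum_congr rfl fun j _ => ?_
  rw [← aeval_algHom_apply, MvPolynomial.aeval_X]

/-- the level set of the sum as a cover -/
noncomputable def sumIso {F : KFn k} (q : Coord F) {m : ℕ} (h : Fin (m + 1) → k[X])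
    (j : Fin (m + 1)) : Iso (lev F q (sumP h))
      (rootF (pw F m) (suC q (fun i => h (j.succAbove i))) (h j)) where
  hom x := ⟨((x.1.1, fun i => x.1.2 (j.succAbove i)), x.1.2 j), by
    have h1 : q.val x.1.1 = MvPolynomial.aeval x.1.2 (sumP h) := x.2
    rw [aeval_sumP, Fin.sum_univ_succAbove _ j] at h1
    change aeval (x.1.2 j) (h j) - (q.val x.1.1 -
      ∑ i, aeval (x.1.2 (j.succAbove i)) (h (j.succAbove i))) = 0
    rw [h1]
    ring⟩
  inv y := ⟨(y.1.1.1, j.insertNth y.1.2 y.1.1.2), by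
    have h1 : aeval y.1.2 (h j) - (q.val y.1.1.1 -
      ∑ i, aeval (y.1.1.2 i) (h (j.succAbove i))) = 0 := y.2
    change q.val y.1.1.1 = MvPolynomial.aeval (j.insertNth y.1.2 y.1.1.2) (sumP h)
    rw [aeval_sumP, Fin.sum_univ_succAbove _ j, Fin.insertNth_apply_same]
    simp only [Fin.insertNth_apply_succAbove]
    linear_combination -h1⟩
  inv_hom x := Subtype.ext (Prod.ext rfl (Fin.insertNth_self_removeNth j x.1.2))
  hom_inv y := by
    apply Subtype.ext
    refine Prod.ext (Prod.ext rfl ?_) ?_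
    · funext i
      exact Fin.insertNth_apply_succAbove (α := fun _ => _) j y.1.2 y.1.1.2 i
    · exact Fin.insertNth_apply_same (α := fun _ => _) j y.1.2 y.1.1.2
  nat _ _ := rfl

/-- **From covers to sums**: if `b φ(w) = a` and the closed subset `b = a = 0` are in the class,
`φ` additive and not zero, then so is `b (h_1(z_1) + ... + h_m(z_m)) = a`, if `φ` is one of the
`h_j`. -/
theorem tower_additive [Finite k] (hP : FormalClass p P) (hp : p.Prime) (hk : (p : k) = 0)
    (hB : Algebra.FiniteType k B) {a b : B} {m : ℕ} (h : Fin m → k[X]) (j : Fin m)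
    (h0 : h j ≠ 0) (h1 : ∀ e ∈ (h j).support, ∃ i, e = p ^ i)
    (hr : P (AdjoinRoot (C b * (h j).map (algebraMap k B) - C a : B[X])))
    (hc : P (B ⧸ Ideal.span {b, a})) :
    P (MvPolynomial (Fin m) B ⧸ Ideal.span {MvPolynomial.C b *
      MvPolynomial.map (algebraMap k B) (sumP h) - MvPolynomial.C a}) := by
  have hG := kops hP hk
  have hr0 : Rp (HT k B) := rp_HT hB
  have hr2 : Rp (covF k b a (h j)) := by
    unfold covF
    infer_instance
  have h4 : (((HT k B).cls (elC k b)).cls (resC (elC k b) (elC k a))).Mem (Pk P k) := by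
    refine Mem.of_iso (F' := Hq k {b, a}) ?_ (mem_hq hP hk hc)
    exact
      { hom := fun x => ⟨x.1.1, fun e he => by
          rcases he with rfl | rfl
          · exact x.1.2
          · exact x.2⟩
        inv := fun y => ⟨⟨y.1, y.2 b (Or.inl rfl)⟩, y.2 a (Or.inr rfl)⟩
        inv_hom := fun _ => rfl
        hom_inv := fun _ => rfl
        nat := fun _ _ => rfl }
  apply of_mem_ZfT hB
  refine Mem.glue hG (tgC k b) ?_ ?_
  · refine Mem.of_iso (tgOpn (sumP h) b a) ?_
    obtain _ | m := m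
    · exact j.elim0
    refine Mem.of_iso (sumIso (quoC k b a) h j) (mem_sums hP hp hk (quoC k b a) (h j) h1 h0 ?_ _)
    refine Mem.of_iso (covIso b a (h j)) (mem_opn hG _ (mem_cov hP hk hr) ?_)
    refine Mem.of_iso (F' := (((HT k B).cls (elC k b)).cls
      (resC (elC k b) (elC k a))).line) ?_ (Mem.line hG h4)
    exact
      { hom := fun x => (⟨⟨x.1.1.1, x.2⟩, by
          have h6 : ev x.1.1.1 b * aeval x.1.1.2 (h j) - ev x.1.1.1 a = 0 := x.1.2
          have h7 : ev x.1.1.1 b = 0 := x.2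
          change ev x.1.1.1 a = 0
          linear_combination (-1) * h6 + aeval x.1.1.2 (h j) * h7⟩, x.1.1.2)
        inv := fun y => ⟨⟨(y.1.1.1, y.2), by
          have h6 : ev y.1.1.1 a = 0 := y.1.2
          have h7 : ev y.1.1.1 b = 0 := y.1.1.2
          change ev y.1.1.1 b * aeval y.2 (h j) - ev y.1.1.1 a = 0
          linear_combination aeval y.2 (h j) * h7 - h6⟩, y.1.1.2⟩
        inv_hom := fun _ => rfl
        hom_inv := fun _ => rfl
        nat := fun _ _ => rfl }
  · refine Mem.of_iso (tgCls (sumP h) b a) ?_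
    exact Mem.of_iso (pwIso _ (Fintype.equivFin (Fin m))).symm (mem_pw hP hk h4 _)

end Pool.Agent.Helper71.PN
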